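import Pool.Agent.GrO.Fin

/-!
Dimension one: the distribution function is an isometric embedding into `L_1`, for both metrics.
-/

set_option autoImplicit false

namespace Pool.Agent.GrP

open Finset Pool.Agent.MP_12e089_an

/-- The distribution function. -/
noncomputable def cdf {Δ : ℕ} (μ : Grid Δ 1 → ℝ) (t : Fin Δ) : ℝ :=
  ∑ x, if x 0 ≤ t then μ x else 0

private theorem line_le {Δ : ℕ} {x y : Fin Δ} (h : x ≤ y) :
    ((y : ℕ) : ℝ) - ((x : ℕ) : ℝ) =
      ∑ t : Fin Δ, |(if x ≤ t then (1 : ℝ) else 0) - (if y ≤ t then 1 else 0)| := by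
  have h1 : ∀ t : Fin Δ, |(if x ≤ t then (1 : ℝ) else 0) - (if y ≤ t then 1 else 0)| =
      if t ∈ Finset.Ico x y then 1 else 0 := by
    intro t
    by_cases hx : x ≤ t
    · by_cases hy : y ≤ t
      · rw [if_pos hx, if_pos hy, if_neg (fun h => absurd hy (not_le.2 (Finset.mem_Ico.1 h).2))]
        simp
      · rw [if_pos hx, if_neg hy, if_pos (Finset.mem_Ico.2 ⟨hx, not_le.1 hy⟩)]
        simp
    · have hy : ¬ y ≤ t := fun hy => hx (h.trans hy)
      rw [if_neg hx, if_neg hy, if_neg (fun h => hx (Finset.mem_Ico.1 h).1)]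
      simp
  rw [Finset.sum_congr rfl fun t _ => h1 t, Finset.sum_boole, Finset.filter_mem_eq_inter,
    Finset.univ_inter, Fin.card_Ico, Nat.cast_sub (by exact_mod_cast h)]

private theorem line_abs {Δ : ℕ} (x y : Fin Δ) :
    |((x : ℕ) : ℝ) - ((y : ℕ) : ℝ)| =
      ∑ t : Fin Δ, |(if x ≤ t then (1 : ℝ) else 0) - (if y ≤ t then 1 else 0)| := by
  rcases le_total x y with h | h
  · rw [abs_sub_comm, ← line_le h, abs_of_nonneg]
    have : ((x : ℕ) : ℝ) ≤ ((y : ℕ) : ℝ) := by exact_mod_cast h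
    linarith
  · have h1 : ((y : ℕ) : ℝ) ≤ ((x : ℕ) : ℝ) := by exact_mod_cast h
    rw [abs_of_nonneg (by linarith), line_le h]
    exact Finset.sum_congr rfl fun t _ => abs_sub_comm _ _

private theorem line_enum {Δ s : ℕ} (S : Finset (Grid Δ 1)) (h : S.card = s) :
    ∃ e : Fin s → Grid Δ 1, Function.Injective e ∧ (∀ y, y ∈ S ↔ ∃ i, e i = y) ∧
      (∀ i j, i ≤ j → e i 0 ≤ e j 0) := by
  classical
  have hinj : Function.Injective (fun x : Grid Δ 1 => x 0) := by
    intro x y hxy
    funext i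
    rw [Subsingleton.elim i 0]
    exact hxy
  have hc : (S.image fun x : Grid Δ 1 => x 0).card = s := by
    rw [Finset.card_image_of_injective _ hinj, h]
  refine ⟨fun i _ => (S.image fun x : Grid Δ 1 => x 0).orderEmbOfFin hc i, ?_, ?_, ?_⟩
  · intro i j hij
    have := congrFun hij 0
    exact (Finset.orderEmbOfFin _ hc).injective this
  · intro y
    have h1 : y ∈ S ↔ y 0 ∈ (S.image fun x : Grid Δ 1 => x 0) := by
      rw [Finset.mem_image]
      constructor
      · intro hy
        exact ⟨y, hy, rfl⟩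
      · rintro ⟨x, hx, hxy⟩
        rwa [← hinj hxy]
    rw [h1, ← Finset.mem_coe, ← Finset.range_orderEmbOfFin _ hc, Set.mem_range]
    refine exists_congr fun i => ?_
    constructor
    · intro hi
      funext t
      rw [Subsingleton.elim t 0]
      exact hi
    · intro hi
      exact congrFun hi 0
  · intro i j hij
    exact (Finset.orderEmbOfFin _ hc).monotone hij

private theorem line_cdf {Δ s : ℕ} (S : Finset (Grid Δ 1)) (e : Fin s → Grid Δ 1)
    (he : Function.Injective e) (heS : ∀ y, y ∈ S ↔ ∃ i, e i = y) (t : Fin Δ) :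
    cdf (unif s S) t = 1 / s * ∑ i, (if e i 0 ≤ t then (1 : ℝ) else 0) := by
  classical
  rw [sum_enum e he heS (fun y => if y 0 ≤ t then (1 : ℝ) else 0), Finset.mul_sum]
  unfold cdf unif
  rw [← Finset.sum_subset (Finset.subset_univ S)]
  · refine Finset.sum_congr rfl fun x hx => ?_
    rw [if_pos hx]
    split_ifs <;> simp
  · intro x _ hx
    rw [if_neg hx]
    split_ifs <;> rfl

theorem line_embed {Δ s : ℕ} (hs : 1 ≤ s) (ρ : Grid Δ 1 → Grid Δ 1 → ℝ)
    (hρ : ∀ x y, ρ x y = |((x 0 : ℕ) : ℝ) - ((y 0 : ℕ) : ℝ)|) :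
    EmbedsL1 (fun μ ν : Y Δ 1 s => W1 ρ μ.1 ν.1) 1 := by
  classical
  obtain ⟨E, hE⟩ := exists_toLOne (Fin Δ)
  have hρ0 : ∀ x y, 0 ≤ ρ x y := fun x y => by rw [hρ]; exact abs_nonneg _
  have hs0 : (0 : ℝ) < s := by exact_mod_cast hs
  refine ⟨le_refl _, fun μ => E (cdf μ.1), 1, one_pos, fun μ ν => ?_⟩
  obtain ⟨μ, S, hS, rfl⟩ := μ
  obtain ⟨ν, T, hT, rfl⟩ := ν
  obtain ⟨e, he1, he2, he3⟩ := line_enum S hS
  obtain ⟨f, hf1, hf2, hf3⟩ := line_enum T hT
  have key : l1 (cdf (unif s S)) (cdf (unif s T)) = W1 ρ (unif s S) (unif s T) := by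
    unfold l1
    have h0 : ∀ t, |cdf (unif s S) t - cdf (unif s T) t| = 1 / s *
        |∑ i, ((if e i 0 ≤ t then (1 : ℝ) else 0) - (if f i 0 ≤ t then 1 else 0))| := by
      intro t
      rw [line_cdf S e he1 he2, line_cdf T f hf1 hf2, ← mul_sub, abs_mul,
        abs_of_nonneg (by positivity), ← Finset.sum_sub_distrib]
    rw [Finset.sum_congr rfl fun t _ => h0 t, ← Finset.mul_sum]
    apply le_antisymm
    · obtain ⟨σ, hσ⟩ := exists_perm_le hs ρ hρ0 e f he1 hf1 he2 hf2
      refine le_trans ?_ hσ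
      refine mul_le_mul_of_nonneg_left ?_ (by positivity)
      calc ∑ t, |∑ i, ((if e i 0 ≤ t then (1 : ℝ) else 0) - (if f i 0 ≤ t then 1 else 0))|
          = ∑ t, |∑ i, ((if e i 0 ≤ t then (1 : ℝ) else 0) -
              (if f (σ i) 0 ≤ t then 1 else 0))| := by
            refine Finset.sum_congr rfl fun t _ => ?_
            rw [Finset.sum_sub_distrib, Finset.sum_sub_distrib,
              Equiv.sum_comp σ (fun i => if f i 0 ≤ t then (1 : ℝ) else 0)]
        _ ≤ ∑ t, ∑ i, |(if e i 0 ≤ t then (1 : ℝ) else 0) -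
              (if f (σ i) 0 ≤ t then 1 else 0)| :=
            Finset.sum_le_sum fun t _ => Finset.abs_sum_le_sum_abs _ _
        _ = ∑ i, ρ (e i) (f (σ i)) := by
            rw [Finset.sum_comm]
            refine Finset.sum_congr rfl fun i _ => ?_
            rw [hρ, line_abs]
    · refine (W1_le hs ρ hρ0 e f he1 hf1 he2 hf2 1).trans ?_
      refine mul_le_mul_of_nonneg_left (le_of_eq ?_) (by positivity)
      have h1 : ∀ i, ρ (e i) (f ((1 : Equiv.Perm (Fin s)) i)) =
          ∑ t, |(if e i 0 ≤ t then (1 : ℝ) else 0) - (if f i 0 ≤ t then 1 else 0)| := by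
        intro i
        rw [hρ, line_abs]
        rfl
      rw [Finset.sum_congr rfl fun i _ => h1 i, Finset.sum_comm]
      refine Finset.sum_congr rfl fun t _ => ?_
      by_cases hc : ∀ i, e i 0 ≤ t → f i 0 ≤ t
      · have h2 : ∀ i, ((if e i 0 ≤ t then (1 : ℝ) else 0) - (if f i 0 ≤ t then 1 else 0)) ≤ 0 := by
          intro i
          by_cases h3 : e i 0 ≤ t
          · rw [if_pos h3, if_pos (hc i h3)]
            norm_num
          · rw [if_neg h3]
            split_ifs <;> norm_num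
        rw [abs_of_nonpos (Finset.sum_nonpos fun i _ => h2 i), ← Finset.sum_neg_distrib]
        exact Finset.sum_congr rfl fun i _ => abs_of_nonpos (h2 i)
      · push Not at hc
        obtain ⟨i, hi1, hi2⟩ := hc
        have h2 : ∀ j, 0 ≤
            ((if e j 0 ≤ t then (1 : ℝ) else 0) - (if f j 0 ≤ t then 1 else 0)) := by
          intro j
          by_cases h3 : f j 0 ≤ t
          · have h4 : e j 0 ≤ t := by
              rcases le_total i j with h | h
              · exact absurd ((hf3 i j h).trans h3) (not_le.2 hi2)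
              · exact (he3 j i h).trans hi1
            rw [if_pos h3, if_pos h4]
            norm_num
          · rw [if_neg h3]
            split_ifs <;> norm_num
        rw [abs_of_nonneg (Finset.sum_nonneg fun i _ => h2 i)]
        exact Finset.sum_congr rfl fun i _ => abs_of_nonneg (h2 i)
  dsimp only
  rw [hE, key]
  constructor <;> linarith

theorem line_one {Δ s : ℕ} (hs : 1 ≤ s) : cY1 Δ 1 s = 1 ∧ cY2 Δ 1 s = 1 := by
  have h1 : ∀ ρ : Y Δ 1 s → Y Δ 1 s → ℝ, EmbedsL1 ρ 1 → c1 ρ = 1 := by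
    intro ρ h
    apply le_antisymm (c1_le h)
    exact le_csInf ⟨1, h⟩ fun D hD => hD.1
  refine ⟨h1 _ (line_embed hs rho1 fun x y => ?_), h1 _ (line_embed hs rho2 fun x y => ?_)⟩
  · unfold rho1
    simp
  · unfold rho2
    rw [Fin.sum_univ_one, Real.sqrt_sq_eq_abs]

end Pool.Agent.GrP
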