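import Pool.Agent.GrP.Low
import Pool.Agent.GrO.Ord

/-!
MODULE ord (M). The order of the distortion in dimension two.

`low_two`. `m = min (s, Δ^d - s)`, `c_1(Y(Δ,d,s)) = c_1(Y(Δ,d,Δ^d-s))` (see how `GrO.low1`, `GrO.low2` in
`Pool/Agent/GrO/Fin.lean` pass from `s` to `m`), so we may assume `s = m`, `2 m ≤ Δ^d`. Let
`T = min (log₂ m, 2 log₂ Δ)`. If `T < 660`, the claim follows from `1 ≤ cY` (`log x ≤ log₂ x`).
Otherwise let `J = ⌊T / 22⌋ - 1 ≥ 29`: `2^(22 J) ≤ 2^T ≤ m` and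
`8 · 2^(11 J) ≤ 8 · 2^(T/2) / 2^11 ≤ Δ`. `main_low` gives `cY ≥ (J - 5) / 2720` (every `D` with
`EmbedsL1 _ D` satisfies it; the set of these `D` is not empty, see `GrO.low1`), and
`J - 5 ≥ T/22 - 7 ≥ T/44 · ...` (as `T ≥ 660`, `T/22 - 7 ≥ T/30`).
`ord_two`: `log m ≤ 2 log Δ` for `d = 2`; upper bound `GrO.up_both`, `GrO.one_le`.
-/

set_option autoImplicit false

namespace Pool.Agent.GrP

open Finset Pool.Agent.MP_12e089_an Pool.Agent.GrO Pool.Agent.KhN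

private theorem ord_pow_le {n a : ℕ} (hn : 1 ≤ n) (h : (a : ℝ) ≤ Real.logb 2 n) : 2 ^ a ≤ n := by
  have hn0 : (0 : ℝ) < n := by exact_mod_cast hn
  have h4 : (2 : ℝ) ^ (a : ℝ) ≤ n := (Real.le_logb_iff_rpow_le (by norm_num) hn0).1 h
  rw [Real.rpow_natCast] at h4
  exact_mod_cast h4

/-- The choice of `J`. -/
private theorem ord_choose {Δ m : ℕ} (hΔ : 1 ≤ Δ) (hm : 1 ≤ m) {T : ℝ} (hT : 660 ≤ T)
    (h1 : T ≤ Real.logb 2 m) (h2 : T ≤ 2 * Real.logb 2 Δ) :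
    ∃ J : ℕ, 11 ≤ J ∧ 8 * 2 ^ (11 * J) ≤ Δ ∧ 2 ^ (22 * J) ≤ m ∧
      T / 200000 ≤ ((J : ℝ) - 5) / 2720 := by
  have hT0 : 0 ≤ T / 22 := by linarith
  have hfl : ((⌊T / 22⌋₊ : ℕ) : ℝ) ≤ T / 22 := Nat.floor_le hT0
  have hfl2 : T / 22 < (⌊T / 22⌋₊ : ℕ) + 1 := Nat.lt_floor_add_one _
  have h30 : (30 : ℕ) ≤ ⌊T / 22⌋₊ := by
    refine Nat.le_floor ?_
    push_cast
    linarith
  obtain ⟨J, hJ⟩ : ∃ J : ℕ, J + 1 = ⌊T / 22⌋₊ := ⟨⌊T / 22⌋₊ - 1, by omega⟩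
  rw [← hJ] at hfl hfl2 h30
  push_cast at hfl hfl2
  refine ⟨J, by omega, ?_, ?_, ?_⟩
  · have h3 : 2 ^ (11 * J + 3) ≤ Δ := by
      refine ord_pow_le hΔ ?_
      push_cast
      linarith
    have h4 : 2 ^ (11 * J + 3) = 8 * 2 ^ (11 * J) := by ring
    omega
  · refine ord_pow_le hm ?_
    push_cast
    linarith
  · linarith

theorem low_two {Δ d s m : ℕ} (hΔ : 2 ≤ Δ) (hd : 2 ≤ d) (hs : 1 ≤ s) (hs' : s < Δ ^ d)
    (hm : m = min s (Δ ^ d - s)) :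
    1 / 200000 * min (Real.log m) (2 * Real.log Δ) ≤ cY1 Δ d s ∧
    1 / 200000 * min (Real.log m) (2 * Real.log Δ) ≤ cY2 Δ d s := by
  have hm1 : 1 ≤ m := by omega
  have hm2 : 2 * m ≤ Δ ^ d := by omega
  obtain ⟨ho1, ho2⟩ := one_le hΔ (by omega) hs hs' hm
  have hlm := log_le_logb hm1
  have hlΔ := log_le_logb (m := Δ) (by omega)
  have hle : min (Real.log m) (2 * Real.log Δ) ≤ min (Real.logb 2 m) (2 * Real.logb 2 Δ) :=
    min_le_min hlm (by linarith)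
  rcases lt_or_ge (min (Real.logb 2 m) (2 * Real.logb 2 Δ)) 660 with hA | hA
  · exact ⟨by linarith, by linarith⟩
  · obtain ⟨J, hJ1, hJ2, hJ3, hJ4⟩ := ord_choose (Δ := Δ) (m := m) (by omega) hm1 hA
      (min_le_left _ _) (min_le_right _ _)
    constructor
    · have hne := (Order.to_m isMet_rho1 hs hs').2
        (hm ▸ (Order.up_log (Δ := Δ) (d := d) (s := m) hΔ (by omega) hm1).1)
      have hfin : ((J : ℝ) - 5) / 2720 ≤ cY1 Δ d s := by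
        refine (le_max_right 1 _).trans (Order.lower hne fun D hD => ?_)
        have hD' := (Order.to_m isMet_rho1 hs hs').1 hD
        rw [← hm] at hD'
        exact (main_low hJ1 hd hJ2 hJ3 hm2).1 hD'
      linarith
    · have hne := (Order.to_m isMet_rho2 hs hs').2
        (hm ▸ (Order.up_log (Δ := Δ) (d := d) (s := m) hΔ (by omega) hm1).2)
      have hfin : ((J : ℝ) - 5) / 2720 ≤ cY2 Δ d s := by
        refine (le_max_right 1 _).trans (Order.lower hne fun D hD => ?_)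
        have hD' := (Order.to_m isMet_rho2 hs hs').1 hD
        rw [← hm] at hD'
        exact (main_low hJ1 hd hJ2 hJ3 hm2).2 hD'
      linarith

theorem ord_two {Δ s m : ℕ} (hΔ : 2 ≤ Δ) (hs : 1 ≤ s) (hs' : s < Δ ^ 2)
    (hm : m = min s (Δ ^ 2 - s)) :
    (1 / 400000 * (1 + Real.log m) ≤ cY1 Δ 2 s ∧ cY1 Δ 2 s ≤ 180 * (1 + Real.log m)) ∧
    (1 / 400000 * (1 + Real.log m) ≤ cY2 Δ 2 s ∧ cY2 Δ 2 s ≤ 180 * (1 + Real.log m)) := by
  obtain ⟨hm1, hL0, hLd⟩ := Order.m_facts hs hs' hm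
  obtain ⟨hu1, hu2⟩ := up_both hΔ (by norm_num) hs hs' hm
  obtain ⟨ho1, ho2⟩ := one_le hΔ (by norm_num) hs hs' hm
  obtain ⟨h1, h2⟩ := low_two hΔ le_rfl hs hs' hm
  have e : min (Real.log m) (2 * Real.log Δ) = Real.log m := by
    refine min_eq_left ?_
    push_cast at hLd
    exact hLd
  rw [e] at h1 h2
  exact ⟨⟨by linarith, hu1⟩, ⟨by linarith, hu2⟩⟩

end Pool.Agent.GrP
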