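import Pool.Agent.GrO.Basic

/-!
The planar case (`k = 2`): definitions.

`G = Grid (2^J) 2` is the coarse grid. Its cells of side `2^i` have the indices
`j : Fin ((2^(J-i))^2)`; `pt J i j h` is the point with offset `h : Grid (2^i) 2` in the cell `j`.
`tq pt φ` is the mean of `‖∑_j (φ (pt j (u j)) - φ (pt j (v j)))‖` over all choices `u`, `v` of
one point in each cell.
-/

set_option autoImplicit false

namespace Pool.Agent.GrP

open Finset Pool.Agent.MP_12e089_an Pool.Agent.GrO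

/-- The mean over `u, v : Fin K → H` of `‖∑_j (φ (pt j (u j)) - φ (pt j (v j)))‖`. -/
noncomputable def tq {G H : Type} [Fintype H] {K : ℕ} (pt : Fin K → H → G) {E : Type}
    [SeminormedAddCommGroup E] (φ : G → E) : ℝ :=
  (∑ u : Fin K → H, ∑ v : Fin K → H, ‖∑ j, (φ (pt j (u j)) - φ (pt j (v j)))‖) /
    (Fintype.card H : ℝ) ^ (2 * K)

/-- The point with offset `h` in the cell with index `j` (side `2^i`). -/
def pt (J i : ℕ) (j : Fin ((2 ^ (J - i)) ^ 2)) (h : Grid (2 ^ i) 2) : Grid (2 ^ J) 2 :=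
  fun t => ⟨((finFunctionFinEquiv.symm j t : ℕ) * 2 ^ i + (h t : ℕ)) % 2 ^ J,
    Nat.mod_lt _ (by positivity)⟩

theorem pt_val {J i : ℕ} (hi : i ≤ J) (j : Fin ((2 ^ (J - i)) ^ 2)) (h : Grid (2 ^ i) 2)
    (t : Fin 2) :
    (pt J i j h t : ℕ) = (finFunctionFinEquiv.symm j t : ℕ) * 2 ^ i + (h t : ℕ) := by
  unfold pt
  dsimp only
  apply Nat.mod_eq_of_lt
  have h1 := (finFunctionFinEquiv.symm j t).2
  have h2 := (h t).2
  have h3 : 2 ^ J = 2 ^ (J - i) * 2 ^ i := by
    rw [← pow_add]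
    congr 1
    omega
  have h4 : (finFunctionFinEquiv.symm j t : ℕ) + 1 ≤ 2 ^ (J - i) := h1
  have h5 := Nat.mul_le_mul_right (2 ^ i) h4
  rw [h3]
  linarith

end Pool.Agent.GrP
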