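import Pool.Agent.GrP.Basic

/-!
MODULE cell (M). The cells partition the grid, and the edges inside the cells are edges of the grid.

`pt_inj`: `pt_val` gives quotient and remainder modulo `2^i` of every coordinate.
`grad_cell`: unfold `grad`; the term of the edge `(h, t)` of the cell `j` on the left is the term of
the edge `(pt J i j h, t)` on the right: if `(h t : ℕ) + 1 < 2^i` then `(pt J i j h t : ℕ) + 1 < 2^J` and
`pt J i j (upd h t _) = upd (pt J i j h) t _`. The map `(j, h) ↦ pt J i j h` is injective and all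
terms are `≥ 0`.
-/

set_option autoImplicit false

namespace Pool.Agent.GrP

open Finset Pool.Agent.MP_12e089_an Pool.Agent.GrO

theorem pt_inj {J i : ℕ} (hi : i ≤ J) {j j' : Fin ((2 ^ (J - i)) ^ 2)} {h h' : Grid (2 ^ i) 2}
    (e : pt J i j h = pt J i j' h') : j = j' ∧ h = h' := by
  have key : ∀ t, (finFunctionFinEquiv.symm j t : ℕ) = (finFunctionFinEquiv.symm j' t : ℕ) ∧
      (h t : ℕ) = (h' t : ℕ) := by
    intro t
    have h1 : (pt J i j h t : ℕ) = (pt J i j' h' t : ℕ) := by rw [e]
    rw [pt_val hi, pt_val hi] at h1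
    have h2 := (h t).2
    have h3 := (h' t).2
    have hpos : 0 < 2 ^ i := by positivity
    have h4 := congrArg (· / 2 ^ i) h1
    have h5 := congrArg (· % 2 ^ i) h1
    simp only [Nat.mul_add_mod_self_right, Nat.mod_eq_of_lt h2, Nat.mod_eq_of_lt h3] at h5
    simp only [Nat.add_comm (_ * 2 ^ i), Nat.add_mul_div_right _ _ hpos, Nat.div_eq_of_lt h2,
      Nat.div_eq_of_lt h3, zero_add] at h4
    exact ⟨h4, h5⟩
  constructor
  · apply finFunctionFinEquiv.symm.injective
    funext t
    exact Fin.ext (key t).1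
  · funext t
    exact Fin.ext (key t).2

private lemma cell_lt {J i : ℕ} (hi : i ≤ J) (j : Fin ((2 ^ (J - i)) ^ 2)) (h : Grid (2 ^ i) 2)
    (t : Fin 2) (H : (h t : ℕ) + 1 < 2 ^ i) : (pt J i j h t : ℕ) + 1 < 2 ^ J := by
  have h1 := pt_val hi j (Function.update h t ⟨(h t : ℕ) + 1, H⟩) t
  have h2 := (pt J i j (Function.update h t ⟨(h t : ℕ) + 1, H⟩) t).2
  rw [Function.update_self] at h1
  have h3 := pt_val hi j h t
  simp only at h1
  omega

private lemma cell_upd {J i : ℕ} (hi : i ≤ J) (j : Fin ((2 ^ (J - i)) ^ 2))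
    (h : Grid (2 ^ i) 2) (t : Fin 2) (H : (h t : ℕ) + 1 < 2 ^ i) :
    pt J i j (upd h t H) = upd (pt J i j h) t (cell_lt hi j h t H) := by
  funext u
  apply Fin.ext
  rw [pt_val hi]
  unfold upd
  by_cases hu : u = t
  · subst hu
    rw [Function.update_self, Function.update_self]
    simp only
    rw [pt_val hi]
    omega
  · rw [Function.update_of_ne hu, Function.update_of_ne hu, pt_val hi]

private lemma cell_sum {A B C : Type} [Fintype A] [Fintype B] [Fintype C] (F : A → B → C)
    (hF : ∀ a a' b b', F a b = F a' b' → a = a' ∧ b = b') (g : C → ℝ) (hg : ∀ c, 0 ≤ g c) :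
    ∑ a, ∑ b, g (F a b) ≤ ∑ c, g c := by
  classical
  have hinj : Function.Injective (fun p : A × B => F p.1 p.2) := fun p q e =>
    Prod.ext (hF _ _ _ _ e).1 (hF _ _ _ _ e).2
  calc ∑ a, ∑ b, g (F a b) = ∑ p : A × B, g (F p.1 p.2) :=
        (Fintype.sum_prod_type fun p : A × B => g (F p.1 p.2)).symm
    _ = ∑ x ∈ Finset.univ.image (fun p : A × B => F p.1 p.2), g x :=
        (Finset.sum_image fun p _ q _ e => hinj e).symm
    _ ≤ ∑ x, g x := Finset.sum_le_univ_sum_of_nonneg hg

theorem grad_cell {J i : ℕ} (hi : i ≤ J) {E : Type} [SeminormedAddCommGroup E]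
    (φ : Grid (2 ^ J) 2 → E) :
    ∑ j : Fin ((2 ^ (J - i)) ^ 2), grad (fun h => φ (pt J i j h)) ≤ grad φ := by
  unfold grad
  refine le_trans (Finset.sum_le_sum fun j _ => Finset.sum_le_sum fun h _ =>
    Finset.sum_le_sum fun t _ => ?_) (cell_sum (fun j h => pt J i j h)
      (fun j j' h h' e => pt_inj hi e)
      (fun x => ∑ t, if h : (x t : ℕ) + 1 < 2 ^ J then ‖φ (upd x t h) - φ x‖ else 0)
      fun x => Finset.sum_nonneg fun t _ => ?_)
  · by_cases H : (h t : ℕ) + 1 < 2 ^ i
    · rw [dif_pos H, dif_pos (cell_lt hi j h t H), ← cell_upd hi j h t H]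
    · rw [dif_neg H]
      split_ifs
      · exact norm_nonneg _
      · exact le_rfl
  · split_ifs
    · exact norm_nonneg _
    · exact le_rfl

end Pool.Agent.GrP
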