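import Pool.Agent.GrO.Lin2
import Pool.Agent.GrP.Basic

/-!
MODULE core1 (S). The lower bound for the mean of the test functional of the derivative.
(Adapt the proof of `Pool/Agent/GrO/Core1.lean`: `tst` is replaced by `tq pt`, the tuples `x`, `y` by
`fun j => pt j (u j)`, `fun j => pt j (v j)`, `T = |G|^(2K)` by `|H|^(2K)`, and `far_sum` by `hfar`.)
-/

set_option autoImplicit false

namespace Pool.Agent.GrP

open Finset Pool.Agent.MP_12e089_an Pool.Agent.GrO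

private theorem core1_err {A b N K P : ℝ} (hA0 : 0 ≤ A) (hP : 0 < P) (hK : 1 ≤ K) (hKN : K ≤ N)
    (hb : 0 < b) (hAP : A * N ≤ P * b) :
    A * (2 * N * (192 * P) / (48 * P * (192 * P)) +
      4 * K ^ 2 * (48 * P * (192 * P)) / (96 * P * (48 * P * (192 * P))) +
      8 * K ^ 2 / (192 * P)) ≤ b * K / 8 := by
  have e : A * (2 * N * (192 * P) / (48 * P * (192 * P)) +
      4 * K ^ 2 * (48 * P * (192 * P)) / (96 * P * (48 * P * (192 * P))) +
      8 * K ^ 2 / (192 * P)) = (A * N + 2 * (A * K ^ 2)) / (24 * P) := by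
    field_simp
    ring
  rw [e, div_le_iff₀ (by positivity)]
  have h1 : A * K ^ 2 ≤ P * b * K := by
    calc A * K ^ 2 = (A * K) * K := by ring
      _ ≤ (A * N) * K := by gcongr
      _ ≤ P * b * K := by gcongr
  have h2 : P * b ≤ P * b * K := by
    have : 0 < P * b := by positivity
    nlinarith
  nlinarith [h1, h2, hAP]

open scoped Classical in
theorem core1 {G : Type} [Fintype G] [DecidableEq G] {E : Type} [NormedAddCommGroup E]
    [NormedSpace ℝ E] {ϕ : (G → ℤ) → E} {A b : ℝ} (hA0 : 0 ≤ A) (hb : 0 < b)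
    (hA : ∀ z a, ‖ϕ (z + Pi.single a 1) - ϕ z‖ ≤ A) {P : ℕ} (hP : 1 ≤ P)
    (hAP : A * Fintype.card G ≤ P * b) {K : ℕ} (hK : 1 ≤ K) (hKG : K ≤ Fintype.card G)
    {H : Type} [Fintype H] [Nonempty H] (pt : Fin K → H → G)
    (δ : G → G → ℝ) {r : ℝ} (hr : 1 ≤ r)
    (hfar : (K : ℝ) / 2 * (Fintype.card H : ℝ) ^ (2 * K) ≤
      ∑ u : Fin K → H, ∑ v : Fin K → H,
        (far δ r (fun j => pt j (u j)) (fun j => pt j (v j)) : ℝ))
    {ρ κ R' : ℕ} (hρ : ρ = 192 * P) (hκ : κ = 48 * P * ρ) (hR' : R' = 96 * P * κ) (R0 : ℤ)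
    (hF : ∀ x y : Fin K → G, ∀ z ∈ box G R0 (R0 + R'),
      b / 2 * r * κ * (far δ r x y : ℝ) ≤ ‖ϕ (z + (κ : ℤ) • mu x y) - ϕ z‖) :
    b * r * K / 8 ≤
      (∑ z ∈ box G R0 (R0 + R'), tq pt (Ld ρ ϕ z)) / (R' : ℝ) ^ Fintype.card G := by
  have hρ1 : 1 ≤ ρ := by rw [hρ]; omega
  have hκ1 : 1 ≤ κ := by
    rw [hκ]
    have : 0 < 48 * P * ρ := by positivity
    omega
  have hR1 : 1 ≤ R' := by
    rw [hR']
    have : 0 < 96 * P * κ := by positivity
    omega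
  have hPr : (0 : ℝ) < P := by exact_mod_cast hP
  have hKr : (1 : ℝ) ≤ K := by exact_mod_cast hK
  have hKN : (K : ℝ) ≤ Fintype.card G := by exact_mod_cast hKG
  have hN : (0 : ℝ) < Fintype.card G := by linarith
  have hκr : (0 : ℝ) < κ := by exact_mod_cast hκ1
  have hRr : (0 : ℝ) < (R' : ℝ) ^ Fintype.card G := by
    have : (0 : ℝ) < R' := by exact_mod_cast hR1
    positivity
  have eρ : (ρ : ℝ) = 192 * P := by rw [hρ]; push_cast; ring
  have eκ : (κ : ℝ) = 48 * P * (192 * P) := by rw [hκ]; push_cast; rw [eρ]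
  have eR : (R' : ℝ) = 96 * P * (48 * P * (192 * P)) := by rw [hR']; push_cast; rw [eκ]
  have key : ∀ x y : Fin K → G, b / 2 * r * (far δ r x y : ℝ) - b * K / 8 ≤
      (∑ z ∈ box G R0 (R0 + R'), ‖∑ j, (Ld ρ ϕ z (x j) - Ld ρ ϕ z (y j))‖) /
        (R' : ℝ) ^ Fintype.card G := by
    intro x y
    have h := lin_main hρ1 hκ1 hR1 R0 hA hA0 x y (hF x y)
    refine le_trans ?_ h
    have e1 : b / 2 * r * κ * (far δ r x y : ℝ) / κ = b / 2 * r * (far δ r x y : ℝ) := by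
      field_simp
    rw [e1]
    have e2 := core1_err (A := A) (b := b) (N := Fintype.card G) (K := K) (P := P) hA0 hPr hKr
      hKN hb hAP
    rw [eR, eκ, eρ]
    linarith
  set X : (Fin K → H) → Fin K → G := fun u j => pt j (u j) with hX
  have hsum : ∑ u : Fin K → H, ∑ v : Fin K → H,
      (b / 2 * r * (far δ r (X u) (X v) : ℝ) - b * K / 8) ≤
      ∑ u : Fin K → H, ∑ v : Fin K → H,
        (∑ z ∈ box G R0 (R0 + R'), ‖∑ j, (Ld ρ ϕ z (X u j) - Ld ρ ϕ z (X v j))‖) /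
        (R' : ℝ) ^ Fintype.card G :=
    Finset.sum_le_sum fun u _ => Finset.sum_le_sum fun v _ => key (X u) (X v)
  set T : ℝ := (Fintype.card H : ℝ) ^ (2 * K) with hT
  have hHpos : (0 : ℝ) < Fintype.card H := by exact_mod_cast Fintype.card_pos
  have hTpos : 0 < T := by positivity
  have hcard : (Fintype.card (Fin K → H) : ℝ) * (Fintype.card (Fin K → H) : ℝ) = T := by
    rw [Fintype.card_fun, Fintype.card_fin, hT, two_mul, pow_add]
    push_cast
    ring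
  have hL : ∑ u : Fin K → H, ∑ v : Fin K → H,
      (b / 2 * r * (far δ r (X u) (X v) : ℝ) - b * K / 8) =
      b / 2 * r * (∑ u : Fin K → H, ∑ v : Fin K → H, (far δ r (X u) (X v) : ℝ)) -
        T * (b * K / 8) := by
    simp only [Finset.sum_sub_distrib, Finset.mul_sum, Finset.sum_const, Finset.card_univ,
      nsmul_eq_mul]
    rw [← hcard]
    ring
  have hR : ∑ u : Fin K → H, ∑ v : Fin K → H,
        (∑ z ∈ box G R0 (R0 + R'), ‖∑ j, (Ld ρ ϕ z (X u j) - Ld ρ ϕ z (X v j))‖) /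
        (R' : ℝ) ^ Fintype.card G =
      T * ((∑ z ∈ box G R0 (R0 + R'), tq pt (Ld ρ ϕ z)) / (R' : ℝ) ^ Fintype.card G) := by
    have e3 : ∀ z : G → ℤ, T * tq pt (Ld ρ ϕ z) =
        ∑ u : Fin K → H, ∑ v : Fin K → H, ‖∑ j, (Ld ρ ϕ z (X u j) - Ld ρ ϕ z (X v j))‖ := by
      intro z
      rw [tq, ← hT, mul_div_cancel₀ _ hTpos.ne']
    have e4 : ∑ u : Fin K → H, ∑ v : Fin K → H, ∑ z ∈ box G R0 (R0 + R'),
        ‖∑ j, (Ld ρ ϕ z (X u j) - Ld ρ ϕ z (X v j))‖ =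
        ∑ z ∈ box G R0 (R0 + R'), ∑ u : Fin K → H, ∑ v : Fin K → H,
          ‖∑ j, (Ld ρ ϕ z (X u j) - Ld ρ ϕ z (X v j))‖ := by
      rw [Finset.sum_comm (s := box G R0 (R0 + R'))]
      exact Finset.sum_congr rfl fun x _ => Finset.sum_comm
    rw [← mul_div_assoc, Finset.mul_sum, Finset.sum_congr rfl fun z _ => e3 z, ← e4]
    simp only [Finset.sum_div]
  rw [hL, hR] at hsum
  have h4 : b / 2 * r * ((K : ℝ) / 2 * T) ≤
      b / 2 * r * (∑ u : Fin K → H, ∑ v : Fin K → H, (far δ r (X u) (X v) : ℝ)) := by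
    gcongr
  have h5 : T * (b * r * K / 8) ≤
      T * ((∑ z ∈ box G R0 (R0 + R'), tq pt (Ld ρ ϕ z)) / (R' : ℝ) ^ Fintype.card G) := by
    refine le_trans ?_ hsum
    have h6 : b * K * T ≤ b * K * T * r := by
      have : 0 ≤ b * K * T := by positivity
      nlinarith
    nlinarith [h4, h6]
  exact le_of_mul_le_mul_left h5 hTpos

end Pool.Agent.GrP
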