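import Pool.Agent.GrP.Basic

/-!
MODULE far (M). Most of the points `pt j (u j)` are far from all points `pt l (v l)`.
(Adapt `Pool/Agent/GrO/Far.lean`, whose private lemmas may be copied.)

Proof. `K - far x y ≤ ∑_j ∑_l [δ (x j) (y l) < r]` (`x j = pt j (u j)`, `y l = pt l (v l)`). For fixed `j` and
`u`: `∑_v ∑_l [δ (x j) (pt l (v l)) < r] = |H|^(K-1) ∑_l #{h | δ (x j) (pt l h) < r} ≤ |H|^(K-1) #{y | δ (x j) y < r}`
because `(l, h) ↦ pt l h` is injective, and this is at most `|H|^K / 2` by `hB`. Sum over `u` and `j`: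
`∑_{u,v} (K - far) ≤ K / 2 |H|^(2K)`.
-/

set_option autoImplicit false

namespace Pool.Agent.GrP

open Finset Pool.Agent.MP_12e089_an Pool.Agent.GrO

open scoped Classical in
/-- The sum of a function of one coordinate. -/
private theorem far_sum_apply {G : Type} [Fintype G] {K : ℕ} (l : Fin K) (f : G → ℝ) :
    ∑ y : Fin K → G, f (y l) = (Fintype.card ({j : Fin K // j ≠ l} → G) : ℝ) * ∑ a, f a := by
  rw [Fintype.sum_equiv (Equiv.funSplitAt l G) (fun y => f (y l)) (fun p => f p.1)
    (fun y => rfl), Fintype.sum_prod_type]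
  simp [Finset.mul_sum]

/-- The same with the number of functions written as a power. -/
private theorem far_sum_apply' {G : Type} [Fintype G] {K : ℕ} (l : Fin K) (f : G → ℝ) :
    (Fintype.card G : ℝ) * ∑ y : Fin K → G, f (y l) = (Fintype.card G : ℝ) ^ K * ∑ a, f a := by
  have h := far_sum_apply (G := G) l (fun _ => (1 : ℝ))
  have h2 := far_sum_apply (G := G) l f
  simp only [Finset.sum_const, Finset.card_univ, Fintype.card_pi, Finset.prod_const,
    Fintype.card_fin, nsmul_eq_mul, mul_one, Nat.cast_pow] at h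
  rw [h2, h]
  simp only [Fintype.card_pi, Finset.prod_const, Finset.card_univ, Nat.cast_pow]
  ring

open scoped Classical in
private theorem far_lb {G : Type} (δ : G → G → ℝ) (r : ℝ) {K : ℕ} (x y : Fin K → G) :
    (K : ℝ) - ∑ j, ∑ l, (if δ (x j) (y l) < r then (1 : ℝ) else 0) ≤ (far δ r x y : ℝ) := by
  have h1 : (far δ r x y : ℝ) = ∑ j : Fin K, (if ∀ l, r ≤ δ (x j) (y l) then (1 : ℝ) else 0) := by
    rw [far, Finset.sum_boole]
  rw [h1]
  have h2 : (K : ℝ) = ∑ j : Fin K, (1 : ℝ) := by simp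
  rw [h2, ← Finset.sum_sub_distrib]
  refine Finset.sum_le_sum fun j _ => ?_
  by_cases h : ∀ l, r ≤ δ (x j) (y l)
  · rw [if_pos h]
    have : 0 ≤ ∑ l, (if δ (x j) (y l) < r then (1 : ℝ) else 0) :=
      Finset.sum_nonneg fun l _ => by split_ifs <;> norm_num
    linarith
  · rw [if_neg h]
    push Not at h
    obtain ⟨l, hl⟩ := h
    have : (if δ (x j) (y l) < r then (1 : ℝ) else 0) ≤
        ∑ l, (if δ (x j) (y l) < r then (1 : ℝ) else 0) :=
      Finset.single_le_sum (f := fun l => (if δ (x j) (y l) < r then (1 : ℝ) else 0))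
        (fun l _ => by positivity) (Finset.mem_univ l)
    rw [if_pos hl] at this
    linarith

open scoped Classical in
/-- The number of the pairs `(l, h)` with `pt l h` near `x` is at most the size of the ball. -/
private theorem far_inj {G H : Type} [Fintype G] [Fintype H] {K : ℕ} (pt : Fin K → H → G)
    (hpt : ∀ j h j' h', pt j h = pt j' h' → j = j' ∧ h = h') (δ : G → G → ℝ) (r : ℝ) (x : G) :
    ∑ l : Fin K, ∑ h : H, (if δ x (pt l h) < r then (1 : ℝ) else 0) ≤
      ((univ.filter fun y => δ x y < r).card : ℝ) := by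
  rw [← Fintype.sum_prod_type' (fun (l : Fin K) (h : H) =>
    (if δ x (pt l h) < r then (1 : ℝ) else 0)), Finset.sum_boole]
  have hc : (univ.filter fun p : Fin K × H => δ x (pt p.1 p.2) < r).card ≤
      (univ.filter fun y => δ x y < r).card := by
    refine Finset.card_le_card_of_injOn (fun p => pt p.1 p.2) ?_ ?_
    · intro p hp
      have hp' : δ x (pt p.1 p.2) < r := by simpa using hp
      simpa using hp'
    · intro p _ q _ hpq
      obtain ⟨h1, h2⟩ := hpt _ _ _ _ hpq
      exact Prod.ext h1 h2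
  exact_mod_cast hc

open scoped Classical in
theorem far_sum {G H : Type} [Fintype G] [Fintype H] [Nonempty H] {K : ℕ} (pt : Fin K → H → G)
    (hpt : ∀ j h j' h', pt j h = pt j' h' → j = j' ∧ h = h') (δ : G → G → ℝ) (r : ℝ)
    (hB : ∀ x, 2 * ((univ.filter fun y => δ x y < r).card : ℝ) ≤ Fintype.card H) :
    (K : ℝ) / 2 * (Fintype.card H : ℝ) ^ (2 * K) ≤
      ∑ u : Fin K → H, ∑ v : Fin K → H,
        (far δ r (fun j => pt j (u j)) (fun j => pt j (v j)) : ℝ) := by
  set N : ℝ := (Fintype.card H : ℝ) with hN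
  have hN0 : 0 < N := by
    rw [hN]
    exact_mod_cast Fintype.card_pos
  -- one point against all
  have hx : ∀ x : G, ∑ v : Fin K → H, ∑ l : Fin K, (if δ x (pt l (v l)) < r then (1 : ℝ) else 0) ≤
      N ^ K / 2 := by
    intro x
    have h1 : N * ∑ v : Fin K → H, ∑ l : Fin K, (if δ x (pt l (v l)) < r then (1 : ℝ) else 0) =
        N ^ K * ∑ l : Fin K, ∑ h : H, (if δ x (pt l h) < r then (1 : ℝ) else 0) := by
      rw [Finset.sum_comm, Finset.mul_sum, Finset.mul_sum]
      refine Finset.sum_congr rfl fun l _ => ?_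
      exact far_sum_apply' l (fun h => if δ x (pt l h) < r then (1 : ℝ) else 0)
    have h2 := far_inj pt hpt δ r x
    have h3 := hB x
    have h4 : N * ∑ v : Fin K → H, ∑ l : Fin K, (if δ x (pt l (v l)) < r then (1 : ℝ) else 0) ≤
        N * (N ^ K / 2) := by
      rw [h1]
      have h5 : N ^ K * ∑ l : Fin K, ∑ h : H, (if δ x (pt l h) < r then (1 : ℝ) else 0) ≤
          N ^ K * (N / 2) := by
        refine mul_le_mul_of_nonneg_left ?_ (by positivity)
        linarith
      calc _ ≤ _ := h5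
        _ = _ := by ring
    exact le_of_mul_le_mul_left h4 hN0
  have hcard : (Fintype.card (Fin K → H) : ℝ) = N ^ K := by
    simp only [Fintype.card_pi, Finset.prod_const, Finset.card_univ, Fintype.card_fin]
    push_cast
    rw [← hN]
  have hbad : ∑ u : Fin K → H, ∑ v : Fin K → H,
      ∑ j : Fin K, ∑ l : Fin K, (if δ (pt j (u j)) (pt l (v l)) < r then (1 : ℝ) else 0) ≤
        (K : ℝ) / 2 * N ^ (2 * K) := by
    calc _ = ∑ u : Fin K → H, ∑ j : Fin K, ∑ v : Fin K → H, ∑ l : Fin K,
          (if δ (pt j (u j)) (pt l (v l)) < r then (1 : ℝ) else 0) :=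
          Finset.sum_congr rfl fun u _ => Finset.sum_comm
      _ ≤ ∑ _u : Fin K → H, ∑ _j : Fin K, N ^ K / 2 :=
          Finset.sum_le_sum fun u _ => Finset.sum_le_sum fun j _ => hx _
      _ = (K : ℝ) / 2 * N ^ (2 * K) := by
          rw [Finset.sum_const, Finset.sum_const, Finset.card_univ, Finset.card_univ,
            Fintype.card_fin, nsmul_eq_mul, nsmul_eq_mul, hcard]
          ring
  have htot : ∑ u : Fin K → H, ∑ v : Fin K → H,
      ((K : ℝ) - ∑ j, ∑ l, (if δ (pt j (u j)) (pt l (v l)) < r then (1 : ℝ) else 0)) =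
      (K : ℝ) * N ^ (2 * K) - ∑ u : Fin K → H, ∑ v : Fin K → H,
      ∑ j : Fin K, ∑ l : Fin K, (if δ (pt j (u j)) (pt l (v l)) < r then (1 : ℝ) else 0) := by
    simp only [Finset.sum_sub_distrib, Finset.sum_const, Finset.card_univ, nsmul_eq_mul]
    rw [hcard]
    ring
  calc (K : ℝ) / 2 * N ^ (2 * K)
      = (K : ℝ) * N ^ (2 * K) - (K : ℝ) / 2 * N ^ (2 * K) := by ring
    _ ≤ _ := sub_le_sub_left hbad _
    _ = _ := htot.symm
    _ ≤ _ := Finset.sum_le_sum fun u _ => Finset.sum_le_sum fun v _ =>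
        far_lb δ r (fun j => pt j (u j)) (fun j => pt j (v j))

end Pool.Agent.GrP
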