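import Pool.Agent.GrP.SetI
import Pool.Agent.GrO.Coa

/-!
MODULE l1i (M). The multi-scale inequality for functions with values in `L_1`.
(Adapt `Pool/Agent/GrO/L1I.lean`: `GrO.coa_L1` with `S` = the type of triples `(i, u, v)`,
`i ∈ range (J + 1)`, `u v : Fin ((2^(J-i))^2) → Grid (2^i) 2`,
`w (i,u,v) = 2^i / |Grid (2^i) 2|^(2 (2^(J-i))^2)`,
`a (i,u,v) x = ∑_j ((if pt J i j (u j) = x then 1 else 0) - (if pt J i j (v j) = x then 1 else 0))`;
`T = Grid (2^J) 2 × Fin 2`, `u (x,t) = 5` if the step is possible and `0` otherwise. The hypothesis for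
sets is `set_ineq`.)
-/

set_option autoImplicit false

namespace Pool.Agent.GrP

open Finset Pool.Agent.MP_12e089_an Pool.Agent.GrO

/-- The index type of the left side. -/
private abbrev l1i_SIx (J : ℕ) : Type :=
  Σ i : {i // i ∈ Finset.range (J + 1)},
    (Fin ((2 ^ (J - i.1)) ^ 2) → Grid (2 ^ i.1) 2) × (Fin ((2 ^ (J - i.1)) ^ 2) → Grid (2 ^ i.1) 2)

private noncomputable def l1i_wS (J : ℕ) (s : l1i_SIx J) : ℝ :=
  (2 : ℝ) ^ s.1.1 / (Fintype.card (Grid (2 ^ s.1.1) 2) : ℝ) ^ (2 * (2 ^ (J - s.1.1)) ^ 2)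

private noncomputable def l1i_aS (J : ℕ) (s : l1i_SIx J) (x : Grid (2 ^ J) 2) : ℝ :=
  ∑ j, ((if pt J s.1.1 j (s.2.1 j) = x then 1 else 0) -
    (if pt J s.1.1 j (s.2.2 j) = x then 1 else 0))

private noncomputable def l1i_uT (J : ℕ) (t : Grid (2 ^ J) 2 × Fin 2) : ℝ :=
  if (t.1 t.2 : ℕ) + 1 < 2 ^ J then 5 else 0

private noncomputable def l1i_pT (J : ℕ) (t : Grid (2 ^ J) 2 × Fin 2) : Grid (2 ^ J) 2 :=
  if h : (t.1 t.2 : ℕ) + 1 < 2 ^ J then upd t.1 t.2 h else t.1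

private theorem l1i_aS_sum (J : ℕ) (s : l1i_SIx J) : ∑ x, l1i_aS J s x = 0 := by
  unfold l1i_aS
  rw [sum_comm]
  simp [sum_sub_distrib]

private theorem l1i_aS_smul {E : Type} [NormedAddCommGroup E] [NormedSpace ℝ E] (J : ℕ)
    (φ : Grid (2 ^ J) 2 → E) (s : l1i_SIx J) :
    ∑ x, l1i_aS J s x • φ x =
      ∑ j, (φ (pt J s.1.1 j (s.2.1 j)) - φ (pt J s.1.1 j (s.2.2 j))) := by
  unfold l1i_aS
  simp only [sum_smul]
  rw [sum_comm]
  refine sum_congr rfl fun j _ => ?_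
  simp [sub_smul, sum_sub_distrib, ite_smul]

private theorem l1i_lhs_eq {E : Type} [NormedAddCommGroup E] [NormedSpace ℝ E] (J : ℕ)
    (φ : Grid (2 ^ J) 2 → E) :
    ∑ s : l1i_SIx J, l1i_wS J s * ‖∑ x, l1i_aS J s x • φ x‖ =
      ∑ i ∈ Finset.range (J + 1), (2 : ℝ) ^ i * tq (pt J i) φ := by
  rw [← Finset.sum_coe_sort (Finset.range (J + 1))
    (fun i => (2 : ℝ) ^ i * tq (pt J i) φ)]
  rw [Fintype.sum_sigma]
  refine sum_congr rfl fun i _ => ?_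
  rw [Fintype.sum_prod_type]
  unfold tq
  rw [mul_div_assoc', div_eq_mul_inv, mul_assoc, mul_comm (∑ x, ∑ y, _) _, ← mul_assoc, mul_sum]
  refine sum_congr rfl fun x _ => ?_
  rw [mul_sum]
  refine sum_congr rfl fun y _ => ?_
  rw [l1i_aS_smul]
  unfold l1i_wS
  rw [div_eq_mul_inv]

private theorem l1i_rhs_eq {E : Type} [NormedAddCommGroup E] [NormedSpace ℝ E] (J : ℕ)
    (φ : Grid (2 ^ J) 2 → E) :
    ∑ t : Grid (2 ^ J) 2 × Fin 2, l1i_uT J t * ‖φ (l1i_pT J t) - φ t.1‖ = 5 * grad φ := by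
  rw [Fintype.sum_prod_type]
  unfold grad
  rw [mul_sum]
  refine sum_congr rfl fun x _ => ?_
  rw [mul_sum]
  refine sum_congr rfl fun j _ => ?_
  unfold l1i_uT l1i_pT
  by_cases h : (x j : ℕ) + 1 < 2 ^ J
  · simp only [h, if_true, dif_pos]
  · simp only [h, if_false, dif_neg, not_false_eq_true, zero_mul, mul_zero]

theorem l1_ineq {J : ℕ} (φ : Grid (2 ^ J) 2 → L1) :
    ∑ i ∈ Finset.range (J + 1), (2 : ℝ) ^ i * tq (pt J i) φ ≤ 5 * grad φ := by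
  rw [← l1i_lhs_eq J φ, ← l1i_rhs_eq J φ]
  refine coa_L1 (l1i_wS J) ?_ (l1i_aS J) (l1i_aS_sum J) (l1i_uT J) ?_ (l1i_pT J)
    (fun t => t.1) ?_ φ
  · intro s
    unfold l1i_wS
    positivity
  · intro t
    unfold l1i_uT
    split_ifs
    · norm_num
    · exact le_rfl
  · intro A
    have h := set_ineq (J := J) A
    rw [← l1i_lhs_eq J (ind A), ← l1i_rhs_eq J (ind A)] at h
    simpa only [smul_eq_mul, Real.norm_eq_abs] using h

end Pool.Agent.GrP
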