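import Pool.Agent.GrP.Basic

/-!
MODULE iso (M). The relative isoperimetric inequality in the square `[l]^2`.

`B` a subset of `Grid l 2`, `α = |B| / l^2`, `P = grad (ind B)` (the number of edges between `B` and its
complement: every term of `grad (ind B)` is `0` or `1`), `l ≥ 1`.
Call a row (fixed `x 1`) or a column (fixed `x 0`) mixed if it contains a point of `B` and a point
of the complement. Each mixed line contains an edge between `B` and its complement (walk along the
line), edges of different lines are different, so (number `r` of mixed rows) + (number `c` of mixed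
columns) `≤ P`.
`iso_a`: `2 α (1 - α) l^4 = #{(x, y) | exactly one of x, y in B}`. Put `z = (x 0, y 1)`; then `x, z` or
`z, y` are separated; `x` and `z` lie in the column `x 0`, `z` and `y` in the row `y 1`. So the number of
pairs is at most `#{(x, y) | column x 0 mixed} + #{(x, y) | row y 1 mixed} = c l^3 + r l^3 ≤ P l^3`.
(Equivalently `2 α (1 - α) ≤ P / l`.)
`iso_b`: if `r = l` or `c = l` then `P ≥ l` and `2 α (1 - α) ≤ 1/2 ≤ P^2/(2 l^2)`. Otherwise there are a
non-mixed row and a non-mixed column; they meet, and all non-mixed rows and columns have the same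
colour (each non-mixed row meets the one non-mixed column, and conversely). If this colour is 'not
in `B`', every point of `B` lies in a mixed row and in a mixed column, so `|B| ≤ r c`; if the colour
is 'in `B`', then `|Bᶜ| ≤ r c`. In both cases `2 α (1 - α) ≤ 2 r c / l^2 ≤ (r + c)^2 / (2 l^2)`.
-/

set_option autoImplicit false

namespace Pool.Agent.GrP

open Finset Pool.Agent.MP_12e089_an Pool.Agent.GrO

/-- A predicate on `Fin n` which takes both values changes somewhere. -/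
private theorem iso_change {n : ℕ} (b : Fin n → Prop) (t₀ t₁ : Fin n) (h₀ : b t₀)
    (h₁ : ¬ b t₁) :
    ∃ (t : Fin n) (h : (t : ℕ) + 1 < n), ¬ (b t ↔ b ⟨(t : ℕ) + 1, h⟩) := by
  by_contra hcon
  push Not at hcon
  have key : ∀ (m : ℕ) (hm : m < n), b ⟨m, hm⟩ ↔ b ⟨0, by omega⟩ := by
    intro m
    induction m with
    | zero => intro hm; exact Iff.rfl
    | succ m ih =>
      intro hm
      have h1 := hcon ⟨m, by omega⟩ hm
      exact h1.symm.trans (ih (by omega))
  exact h₁ ((key t₁ t₁.2).2 ((key t₀ t₀.2).1 h₀))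

/-- The edge term of `grad (ind B)` in direction `j`. -/
private noncomputable def iso_et {l : ℕ} (B : Finset (Grid l 2)) (j : Fin 2) (x : Grid l 2) : ℝ :=
  if h : (x j : ℕ) + 1 < l then ‖ind B (upd x j h) - ind B x‖ else 0

private theorem iso_et_nonneg {l : ℕ} (B : Finset (Grid l 2)) (j : Fin 2) (x : Grid l 2) :
    0 ≤ iso_et B j x := by
  unfold iso_et
  split_ifs
  · exact norm_nonneg _
  · exact le_rfl

/-- The mixed columns. -/
private noncomputable def iso_C {l : ℕ} (B : Finset (Grid l 2)) : Finset (Fin l) :=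
  open scoped Classical in
  univ.filter fun a => (∃ t : Fin l, (![a, t] : Grid l 2) ∈ B) ∧ ∃ t : Fin l, (![a, t] : Grid l 2) ∉ B

/-- The mixed rows. -/
private noncomputable def iso_R {l : ℕ} (B : Finset (Grid l 2)) : Finset (Fin l) :=
  open scoped Classical in
  univ.filter fun c => (∃ t : Fin l, (![t, c] : Grid l 2) ∈ B) ∧ ∃ t : Fin l, (![t, c] : Grid l 2) ∉ B

private theorem iso_sum {l : ℕ} (f : Grid l 2 → ℝ) :
    ∑ x, f x = ∑ a : Fin l, ∑ c : Fin l, f ![a, c] := by
  rw [← Fintype.sum_prod_type']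
  exact Fintype.sum_equiv (finTwoArrowEquiv (Fin l)) _ _ (fun x => by
    congr 1
    funext i
    fin_cases i <;> rfl)

private theorem iso_col {l : ℕ} (B : Finset (Grid l 2)) (a : Fin l) (ha : a ∈ iso_C B) :
    1 ≤ ∑ c : Fin l, iso_et B 1 ![a, c] := by
  unfold iso_C at ha
  simp only [mem_filter, mem_univ, true_and] at ha
  obtain ⟨⟨t₀, h₀⟩, ⟨t₁, h₁⟩⟩ := ha
  obtain ⟨t, h, hne⟩ := iso_change (fun t => (![a, t] : Grid l 2) ∈ B) t₀ t₁ h₀ h₁
  have h2 : iso_et B 1 ![a, t] = 1 := by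
    have h3 : (((![a, t] : Grid l 2) 1 : Fin l) : ℕ) + 1 < l := by simpa using h
    unfold iso_et
    rw [dif_pos h3]
    have h4 : upd (![a, t] : Grid l 2) 1 h3 = ![a, ⟨(t : ℕ) + 1, h⟩] := by
      unfold upd
      funext i
      fin_cases i <;> simp [Function.update]
    rw [h4]
    unfold ind
    by_cases h5 : (![a, t] : Grid l 2) ∈ B
    · have h6 : (![a, ⟨(t : ℕ) + 1, h⟩] : Grid l 2) ∉ B := fun h7 => hne ⟨fun _ => h7, fun _ => h5⟩
      rw [if_pos h5, if_neg h6]
      norm_num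
    · have h6 : (![a, ⟨(t : ℕ) + 1, h⟩] : Grid l 2) ∈ B := by
        by_contra h7
        exact hne ⟨fun h8 => absurd h8 h5, fun h8 => absurd h8 h7⟩
      rw [if_neg h5, if_pos h6]
      norm_num
  calc (1 : ℝ) = iso_et B 1 ![a, t] := h2.symm
    _ ≤ ∑ c : Fin l, iso_et B 1 ![a, c] :=
      Finset.single_le_sum (f := fun c : Fin l => iso_et B 1 ![a, c])
        (fun c _ => iso_et_nonneg B 1 _) (mem_univ t)

private theorem iso_row {l : ℕ} (B : Finset (Grid l 2)) (c : Fin l) (hc : c ∈ iso_R B) :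
    1 ≤ ∑ a : Fin l, iso_et B 0 ![a, c] := by
  unfold iso_R at hc
  simp only [mem_filter, mem_univ, true_and] at hc
  obtain ⟨⟨t₀, h₀⟩, ⟨t₁, h₁⟩⟩ := hc
  obtain ⟨t, h, hne⟩ := iso_change (fun t => (![t, c] : Grid l 2) ∈ B) t₀ t₁ h₀ h₁
  have h2 : iso_et B 0 ![t, c] = 1 := by
    have h3 : (((![t, c] : Grid l 2) 0 : Fin l) : ℕ) + 1 < l := by simpa using h
    unfold iso_et
    rw [dif_pos h3]
    have h4 : upd (![t, c] : Grid l 2) 0 h3 = ![⟨(t : ℕ) + 1, h⟩, c] := by
      unfold upd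
      funext i
      fin_cases i <;> simp [Function.update]
    rw [h4]
    unfold ind
    by_cases h5 : (![t, c] : Grid l 2) ∈ B
    · have h6 : (![⟨(t : ℕ) + 1, h⟩, c] : Grid l 2) ∉ B := fun h7 => hne ⟨fun _ => h7, fun _ => h5⟩
      rw [if_pos h5, if_neg h6]
      norm_num
    · have h6 : (![⟨(t : ℕ) + 1, h⟩, c] : Grid l 2) ∈ B := by
        by_contra h7
        exact hne ⟨fun h8 => absurd h8 h5, fun h8 => absurd h8 h7⟩
      rw [if_neg h5, if_pos h6]
      norm_num
  calc (1 : ℝ) = iso_et B 0 ![t, c] := h2.symm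
    _ ≤ ∑ a : Fin l, iso_et B 0 ![a, c] :=
      Finset.single_le_sum (f := fun a : Fin l => iso_et B 0 ![a, c])
        (fun a _ => iso_et_nonneg B 0 _) (mem_univ t)

/-- Every mixed line contains an edge. -/
private theorem iso_grad {l : ℕ} (B : Finset (Grid l 2)) :
    ((iso_C B).card : ℝ) + ((iso_R B).card : ℝ) ≤ grad (ind B) := by
  have h0 : grad (ind B) = ∑ x : Grid l 2, iso_et B 0 x + ∑ x : Grid l 2, iso_et B 1 x := by
    rw [← Finset.sum_add_distrib]
    unfold grad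
    refine Finset.sum_congr rfl fun x _ => ?_
    rw [Fin.sum_univ_two]
    rfl
  have h1 : ((iso_C B).card : ℝ) ≤ ∑ x : Grid l 2, iso_et B 1 x := by
    rw [iso_sum]
    calc ((iso_C B).card : ℝ) = ∑ a ∈ iso_C B, (1 : ℝ) := by simp
      _ ≤ ∑ a ∈ iso_C B, ∑ c : Fin l, iso_et B 1 ![a, c] :=
        Finset.sum_le_sum fun a ha => iso_col B a ha
      _ ≤ ∑ a : Fin l, ∑ c : Fin l, iso_et B 1 ![a, c] :=
        Finset.sum_le_sum_of_subset_of_nonneg (Finset.subset_univ _)
          fun a _ _ => Finset.sum_nonneg fun c _ => iso_et_nonneg B 1 _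
  have h2 : ((iso_R B).card : ℝ) ≤ ∑ x : Grid l 2, iso_et B 0 x := by
    rw [iso_sum, Finset.sum_comm]
    calc ((iso_R B).card : ℝ) = ∑ c ∈ iso_R B, (1 : ℝ) := by simp
      _ ≤ ∑ c ∈ iso_R B, ∑ a : Fin l, iso_et B 0 ![a, c] :=
        Finset.sum_le_sum fun c hc => iso_row B c hc
      _ ≤ ∑ c : Fin l, ∑ a : Fin l, iso_et B 0 ![a, c] :=
        Finset.sum_le_sum_of_subset_of_nonneg (Finset.subset_univ _)
          fun c _ _ => Finset.sum_nonneg fun a _ => iso_et_nonneg B 0 _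
  linarith

private theorem iso_ind_sum {l : ℕ} (B : Finset (Grid l 2)) :
    ∑ x, ind B x = (B.card : ℝ) := by
  unfold ind
  rw [Finset.sum_ite_mem]
  simp

private theorem iso_eta {l : ℕ} (x : Grid l 2) : x = ![x 0, x 1] := by
  funext i
  fin_cases i <;> rfl

/-- Two points in a column. -/
private theorem iso_sepC {l : ℕ} (B : Finset (Grid l 2)) (a c c' : Fin l) :
    |ind B ![a, c] - ind B ![a, c']| ≤ if a ∈ iso_C B then 1 else 0 := by
  by_cases ha : a ∈ iso_C B
  · rw [if_pos ha]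
    unfold ind
    split_ifs <;> norm_num
  · rw [if_neg ha]
    unfold iso_C at ha
    simp only [mem_filter, mem_univ, true_and, not_and, not_exists, not_not,
      forall_exists_index] at ha
    unfold ind
    by_cases h1 : (![a, c] : Grid l 2) ∈ B
    · rw [if_pos h1, if_pos (ha c h1 c')]
      simp
    · by_cases h2 : (![a, c'] : Grid l 2) ∈ B
      · exact absurd (ha c' h2 c) h1
      · rw [if_neg h1, if_neg h2]
        simp

/-- Two points in a row. -/
private theorem iso_sepR {l : ℕ} (B : Finset (Grid l 2)) (a a' c : Fin l) :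
    |ind B ![a, c] - ind B ![a', c]| ≤ if c ∈ iso_R B then 1 else 0 := by
  by_cases hc : c ∈ iso_R B
  · rw [if_pos hc]
    unfold ind
    split_ifs <;> norm_num
  · rw [if_neg hc]
    unfold iso_R at hc
    simp only [mem_filter, mem_univ, true_and, not_and, not_exists, not_not,
      forall_exists_index] at hc
    unfold ind
    by_cases h1 : (![a, c] : Grid l 2) ∈ B
    · rw [if_pos h1, if_pos (hc a h1 a')]
      simp
    · by_cases h2 : (![a', c] : Grid l 2) ∈ B
      · exact absurd (hc a' h2 a) h1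
      · rw [if_neg h1, if_neg h2]
        simp

private theorem iso_count {l : ℕ} (B : Finset (Grid l 2)) :
    2 * (B.card : ℝ) * ((l : ℝ) ^ 2 - B.card) ≤
      (((iso_C B).card : ℝ) + ((iso_R B).card : ℝ)) * (l : ℝ) ^ 3 := by
  have hN : ∑ x : Grid l 2, (1 : ℝ) = (l : ℝ) ^ 2 := by
    simp
  have h1 : ∑ x : Grid l 2, ∑ y : Grid l 2, |ind B x - ind B y| =
      2 * (B.card : ℝ) * ((l : ℝ) ^ 2 - B.card) := by
    have e1 : ∀ x y : Grid l 2, |ind B x - ind B y| =
        ind B x * 1 + 1 * ind B y - 2 * (ind B x * ind B y) := by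
      intro x y
      unfold ind
      split_ifs <;> norm_num
    simp_rw [e1, Finset.sum_sub_distrib, Finset.sum_add_distrib, ← Finset.mul_sum,
      ← Finset.sum_mul]
    rw [iso_ind_sum, hN]
    have e2 : ∑ _i : Grid l 2, (B.card : ℝ) = (B.card : ℝ) * (l : ℝ) ^ 2 := by
      rw [← hN, Finset.mul_sum]
      simp
    simp only [one_mul]
    rw [e2]
    ring
  have h2 : ∀ x y : Grid l 2, |ind B x - ind B y| ≤
      (if x 0 ∈ iso_C B then 1 else 0) + (if y 1 ∈ iso_R B then 1 else 0) := by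
    intro x y
    have e1 : |ind B x - ind B ![x 0, y 1]| ≤ if x 0 ∈ iso_C B then 1 else 0 := by
      conv_lhs => rw [iso_eta x]
      exact iso_sepC B (x 0) (x 1) (y 1)
    have e2 : |ind B ![x 0, y 1] - ind B y| ≤ if y 1 ∈ iso_R B then 1 else 0 := by
      have := iso_sepR B (x 0) (y 0) (y 1)
      rwa [← iso_eta y] at this
    exact (abs_sub_le _ _ _).trans (add_le_add e1 e2)
  rw [← h1]
  have h3 : ∑ x : Grid l 2, (if x 0 ∈ iso_C B then (1 : ℝ) else 0) = (iso_C B).card * l := by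
    rw [iso_sum]
    have e3 : ∀ a : Fin l, ∑ c : Fin l, (if (![a, c] : Grid l 2) 0 ∈ iso_C B then (1 : ℝ) else 0) =
        (if a ∈ iso_C B then (1 : ℝ) else 0) * l := by
      intro a
      by_cases ha : a ∈ iso_C B <;> simp [ha]
    simp_rw [e3]
    rw [← Finset.sum_mul, Finset.sum_ite_mem]
    simp
  have h4 : ∑ y : Grid l 2, (if y 1 ∈ iso_R B then (1 : ℝ) else 0) = (iso_R B).card * l := by
    rw [iso_sum]
    simp [Finset.sum_ite_mem]
    ring
  calc ∑ x : Grid l 2, ∑ y : Grid l 2, |ind B x - ind B y|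
      ≤ ∑ x : Grid l 2, ∑ y : Grid l 2,
        ((if x 0 ∈ iso_C B then (1 : ℝ) else 0) + (if y 1 ∈ iso_R B then 1 else 0)) :=
        Finset.sum_le_sum fun x _ => Finset.sum_le_sum fun y _ => h2 x y
    _ = (((iso_C B).card : ℝ) + ((iso_R B).card : ℝ)) * (l : ℝ) ^ 3 := by
        simp_rw [Finset.sum_add_distrib]
        rw [h4]
        have h5 : ∑ x : Grid l 2, ∑ _y : Grid l 2, (if x 0 ∈ iso_C B then (1 : ℝ) else 0) =
            (iso_C B).card * l * (l : ℝ) ^ 2 := by
          have : ∀ x : Grid l 2, ∑ _y : Grid l 2, (if x 0 ∈ iso_C B then (1 : ℝ) else 0) =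
              (if x 0 ∈ iso_C B then (1 : ℝ) else 0) * (l : ℝ) ^ 2 := by
            intro x
            rw [← hN, Finset.mul_sum]
            simp
          simp_rw [this]
          rw [← Finset.sum_mul, h3]
        have h6 : ∑ _x : Grid l 2, ((iso_R B).card : ℝ) * l = (iso_R B).card * l * (l : ℝ) ^ 2 := by
          rw [← hN, Finset.mul_sum]
          simp
        rw [h5, h6]
        ring

private theorem iso_box {l : ℕ} (B : Finset (Grid l 2)) (D : Finset (Grid l 2))
    (h : ∀ x ∈ D, x 0 ∈ iso_C B ∧ x 1 ∈ iso_R B) :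
    D.card ≤ (iso_C B).card * (iso_R B).card := by
  rw [← Finset.card_product]
  refine Finset.card_le_card_of_injOn (fun x => (x 0, x 1)) (fun x hx => ?_) ?_
  · exact Finset.mem_coe.2 (Finset.mem_product.2 (h x hx))
  · intro x _ y _ hxy
    rw [iso_eta x, iso_eta y]
    have h1 : x 0 = y 0 := congrArg Prod.fst hxy
    have h2 : x 1 = y 1 := congrArg Prod.snd hxy
    rw [h1, h2]

theorem iso_a {l : ℕ} (hl : 1 ≤ l) (B : Finset (Grid l 2)) :
    2 * ((B.card : ℝ) / (l : ℝ) ^ 2) * (1 - (B.card : ℝ) / (l : ℝ) ^ 2) ≤ grad (ind B) / l := by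
  have hl0 : (0 : ℝ) < l := by exact_mod_cast hl
  have h1 := iso_count B
  have h2 := iso_grad B
  rw [le_div_iff₀ hl0]
  have h3 : 2 * ((B.card : ℝ) / (l : ℝ) ^ 2) * (1 - (B.card : ℝ) / (l : ℝ) ^ 2) * l =
      (2 * (B.card : ℝ) * ((l : ℝ) ^ 2 - B.card)) / (l : ℝ) ^ 3 := by
    field_simp
  rw [h3]
  refine le_trans ?_ h2
  rw [div_le_iff₀ (by positivity)]
  exact h1

theorem iso_b {l : ℕ} (hl : 1 ≤ l) (B : Finset (Grid l 2)) :
    2 * ((B.card : ℝ) / (l : ℝ) ^ 2) * (1 - (B.card : ℝ) / (l : ℝ) ^ 2) ≤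
      grad (ind B) ^ 2 / (2 * (l : ℝ) ^ 2) := by
  have hl0 : (0 : ℝ) < l := by exact_mod_cast hl
  have h2 := iso_grad B
  set c : ℝ := ((iso_C B).card : ℝ) with hc
  set r : ℝ := ((iso_R B).card : ℝ) with hr
  have hc0 : 0 ≤ c := Nat.cast_nonneg _
  have hr0 : 0 ≤ r := Nat.cast_nonneg _
  set α : ℝ := (B.card : ℝ) / (l : ℝ) ^ 2 with hα
  have hcard : B.card ≤ l ^ 2 := by
    have := Finset.card_le_univ B
    simpa using this
  have hα0 : 0 ≤ α := by positivity
  have hα1 : α ≤ 1 := by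
    rw [hα, div_le_one (by positivity)]
    exact_mod_cast hcard
  have hbig : (l : ℝ) ≤ c + r → 2 * α * (1 - α) ≤ grad (ind B) ^ 2 / (2 * (l : ℝ) ^ 2) := by
    intro h
    rw [le_div_iff₀ (by positivity)]
    have h3 : (l : ℝ) ≤ grad (ind B) := h.trans h2
    have h4 : (l : ℝ) ^ 2 ≤ grad (ind B) ^ 2 := pow_le_pow_left₀ hl0.le h3 2
    have h5 : 2 * α * (1 - α) ≤ 1 / 2 := by nlinarith [sq_nonneg (2 * α - 1)]
    calc 2 * α * (1 - α) * (2 * (l : ℝ) ^ 2) ≤ 1 / 2 * (2 * (l : ℝ) ^ 2) :=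
          mul_le_mul_of_nonneg_right h5 (by positivity)
      _ = (l : ℝ) ^ 2 := by ring
      _ ≤ _ := h4
  have hsmall : 2 * α * (1 - α) ≤ 2 * (c * r) / (l : ℝ) ^ 2 →
      2 * α * (1 - α) ≤ grad (ind B) ^ 2 / (2 * (l : ℝ) ^ 2) := by
    intro h
    refine h.trans ?_
    rw [div_le_div_iff₀ (by positivity) (by positivity)]
    have h3 : (c + r) ^ 2 ≤ grad (ind B) ^ 2 := pow_le_pow_left₀ (by positivity) h2 2
    have h4 : 4 * (c * r) ≤ grad (ind B) ^ 2 := by nlinarith [sq_nonneg (c - r)]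
    calc 2 * (c * r) * (2 * (l : ℝ) ^ 2) = 4 * (c * r) * (l : ℝ) ^ 2 := by ring
      _ ≤ _ := mul_le_mul_of_nonneg_right h4 (by positivity)
  by_cases hC : iso_C B = univ
  · apply hbig
    have : c = l := by
      rw [hc, hC]
      simp
    linarith
  by_cases hR : iso_R B = univ
  · apply hbig
    have : r = l := by
      rw [hr, hR]
      simp
    linarith
  obtain ⟨a₀, ha₀⟩ : ∃ a, a ∉ iso_C B := by
    by_contra h
    push Not at h
    exact hC (Finset.eq_univ_iff_forall.2 h)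
  obtain ⟨c₀, hc₀⟩ : ∃ c, c ∉ iso_R B := by
    by_contra h
    push Not at h
    exact hR (Finset.eq_univ_iff_forall.2 h)
  apply hsmall
  have ha : (∃ t : Fin l, (![a₀, t] : Grid l 2) ∈ B) → ∀ t : Fin l, (![a₀, t] : Grid l 2) ∈ B := by
    intro h t
    by_contra h'
    apply ha₀
    unfold iso_C
    simp only [mem_filter, mem_univ, true_and]
    exact ⟨h, t, h'⟩
  have hb : (∃ t : Fin l, (![t, c₀] : Grid l 2) ∈ B) → ∀ t : Fin l, (![t, c₀] : Grid l 2) ∈ B := by
    intro h t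
    by_contra h'
    apply hc₀
    unfold iso_R
    simp only [mem_filter, mem_univ, true_and]
    exact ⟨h, t, h'⟩
  have hinC : ∀ x : Grid l 2, ∀ t, x ∈ B → (![x 0, t] : Grid l 2) ∉ B → x 0 ∈ iso_C B := by
    intro x t h1 h3
    unfold iso_C
    simp only [mem_filter, mem_univ, true_and]
    exact ⟨⟨x 1, by rw [← iso_eta x]; exact h1⟩, t, h3⟩
  have hinC' : ∀ x : Grid l 2, ∀ t, x ∉ B → (![x 0, t] : Grid l 2) ∈ B → x 0 ∈ iso_C B := by
    intro x t h1 h3
    unfold iso_C
    simp only [mem_filter, mem_univ, true_and]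
    exact ⟨⟨t, h3⟩, x 1, by rw [← iso_eta x]; exact h1⟩
  have hinR : ∀ x : Grid l 2, ∀ t, x ∈ B → (![t, x 1] : Grid l 2) ∉ B → x 1 ∈ iso_R B := by
    intro x t h1 h3
    unfold iso_R
    simp only [mem_filter, mem_univ, true_and]
    exact ⟨⟨x 0, by rw [← iso_eta x]; exact h1⟩, t, h3⟩
  have hinR' : ∀ x : Grid l 2, ∀ t, x ∉ B → (![t, x 1] : Grid l 2) ∈ B → x 1 ∈ iso_R B := by
    intro x t h1 h3
    unfold iso_R
    simp only [mem_filter, mem_univ, true_and]
    exact ⟨⟨t, h3⟩, x 0, by rw [← iso_eta x]; exact h1⟩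
  by_cases hq : (![a₀, c₀] : Grid l 2) ∈ B
  · have h5 := iso_box B Bᶜ (fun x hx => by
      rw [Finset.mem_compl] at hx
      exact ⟨hinC' x c₀ hx (hb ⟨a₀, hq⟩ _), hinR' x a₀ hx (ha ⟨c₀, hq⟩ _)⟩)
    rw [Finset.card_compl] at h5
    have h6 : ((Fintype.card (Grid l 2) - B.card : ℕ) : ℝ) = (l : ℝ) ^ 2 - B.card := by
      rw [Nat.cast_sub (Finset.card_le_univ B)]
      simp
    have h7 : (l : ℝ) ^ 2 - B.card ≤ c * r := by
      rw [← h6, hc, hr]
      exact_mod_cast h5
    have h8 : 1 - α ≤ c * r / (l : ℝ) ^ 2 := by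
      rw [hα, le_div_iff₀ (by positivity)]
      field_simp
      exact h7
    have h9 : 0 ≤ c * r / (l : ℝ) ^ 2 := by positivity
    calc 2 * α * (1 - α) ≤ 2 * (1 - α) := by nlinarith
      _ ≤ 2 * (c * r / (l : ℝ) ^ 2) := by linarith
      _ = _ := by ring
  · have h5 := iso_box B B (fun x hx =>
      ⟨hinC x c₀ hx (fun h => hq (hb ⟨_, h⟩ _)), hinR x a₀ hx (fun h => hq (ha ⟨_, h⟩ _))⟩)
    have h7 : (B.card : ℝ) ≤ c * r := by
      rw [hc, hr]
      exact_mod_cast h5
    have h8 : α ≤ c * r / (l : ℝ) ^ 2 := by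
      rw [hα]
      gcongr
    calc 2 * α * (1 - α) ≤ 2 * α := by nlinarith
      _ ≤ 2 * (c * r / (l : ℝ) ^ 2) := by linarith
      _ = _ := by ring

end Pool.Agent.GrP
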