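import Pool.Agent.GrP.Core2
import Pool.Agent.GrO.St3
import Pool.Agent.GrO.Geo
import Pool.Agent.GrO.Ball

/-!
MODULE low (M). The lower bound for the distortion in dimension `d ≥ 2`, with parameters.
(Adapt the proof of `Pool/Agent/GrO/Low.lean` with `k = 2`, whose private lemmas may be copied:
`cfg_exists`, `ball1`, `ball2`, `W1_step`, `W1_adj`, `W1_far` hold for `k = 2`.) In the trivial case
`D > (2^J)^2` use `J ≤ (2^J)^2`. Final constant: `τ = 2` resp. `τ = √2 ≥ 1`.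
-/

set_option autoImplicit false

namespace Pool.Agent.GrP

open Finset Pool.Agent.MP_12e089_an Pool.Agent.GrO Pool.Agent.KhN

private theorem rho2_le_rho1 {Δ d : ℕ} (x y : Grid Δ d) : rho2 x y ≤ rho1 x y := by
  have h0 : (0 : ℝ) ≤ rho1 x y := isMet_rho1.nonneg x y
  have h1 : ∑ i, (((x i : ℕ) : ℝ) - ((y i : ℕ) : ℝ)) ^ 2 ≤ (rho1 x y) ^ 2 := by
    unfold rho1
    refine le_trans (le_of_eq ?_) (sum_sq_le_sq_sum_of_nonneg fun i _ => abs_nonneg _)
    refine sum_congr rfl fun i _ => ?_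
    rw [sq_abs]
  unfold rho2
  exact (Real.sqrt_le_sqrt h1).trans (le_of_eq (Real.sqrt_sq h0))

private theorem upd_ne {n k : ℕ} (a : Grid n k) (j : Fin k) (h : (a j : ℕ) + 1 < n) :
    a ≠ upd a j h := by
  intro h1
  have h2 := congrArg Fin.val (congrFun h1 j)
  unfold upd at h2
  rw [Function.update_self] at h2
  dsimp only at h2
  omega

private theorem rho1_upd {n k : ℕ} (a : Grid n k) (j : Fin k) (h : (a j : ℕ) + 1 < n) :
    rho1 (upd a j h) a = 1 := by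
  unfold rho1
  rw [sum_eq_single j]
  · unfold upd
    rw [Function.update_self]
    push_cast
    rw [add_sub_cancel_left, abs_one]
  · intro i _ hi
    unfold upd
    rw [Function.update_of_ne hi, sub_self, abs_zero]
  · intro h1
    exact absurd (mem_univ _) h1

open scoped Classical in
private theorem low_aux {Δ d s J : ℕ} (hJ : 11 ≤ J) (hs : 0 < s)
    {ρ : Grid Δ d → Grid Δ d → ℝ} (hρ : IsMet ρ)
    (δ : Grid (2 ^ J) 2 → Grid (2 ^ J) 2 → ℝ) (hδ : ∀ a, δ a a = 0) {τ b D : ℝ} (hτ : 1 ≤ τ)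
    (hb : 0 < b) {W : ℕ} (hW : (W : ℤ) = (((2 : ℤ) ^ J) ^ 2) ^ 10)
    (c : Cfg (Grid (2 ^ J) 2) W (Grid Δ d) s)
    (h1 : ∀ a j t, ρ (c.P a j) (c.Q t) ≤ 2 * 2 ^ J * b)
    (h2 : ∀ a j h j' j'', ρ (c.P (upd a j h) j') (c.P a j'') ≤ 2 * b)
    (h3 : ∀ a j a' j', b * δ a a' - b / 4 ≤ ρ (c.P a j) (c.P a' j'))
    (hball : ∀ i : ℕ, 5 ≤ i → ∀ x,
      2 * ((univ.filter fun y => δ x y < τ * 2 ^ i / 17).card : ℝ) ≤ (2 : ℝ) ^ (i * 2))
    (hDN : D ≤ ((2 : ℝ) ^ J) ^ 2)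
    (hE : EmbedsL1 (fun μ ν : Y Δ d s => W1 ρ μ.1 ν.1) D) :
    τ * ((J : ℝ) - 5) / 2720 ≤ D := by
  obtain ⟨hD, f, r, hr, hf⟩ := hE
  have hs' : (0 : ℝ) < s := by exact_mod_cast hs
  let m : (Grid (2 ^ J) 2 → ℤ) → Y Δ d s := fun z =>
    ⟨unif s (c.St z), c.St z, card_St c z, rfl⟩
  let ϕ : (Grid (2 ^ J) 2 → ℤ) → L1 := fun z => (s / r : ℝ) • f (m z)
  have hsr : 0 < (s / r : ℝ) := div_pos hs' hr
  have hn : ∀ z z', ‖ϕ z - ϕ z'‖ = s / r * ‖f (m z) - f (m z')‖ := by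
    intro z z'
    rw [← smul_sub, norm_smul, Real.norm_of_nonneg hsr.le]
  have hup : ∀ z z' : Grid (2 ^ J) 2 → ℤ, ∀ H : ℝ,
      W1 ρ (unif s (c.St z)) (unif s (c.St z')) ≤ H / s → ‖ϕ z - ϕ z'‖ ≤ D * H := by
    intro z z' H h
    rw [hn]
    have h4 : ‖f (m z) - f (m z')‖ ≤ D * r * (H / s) :=
      ((hf (m z) (m z')).2).trans (mul_le_mul_of_nonneg_left h (by positivity))
    refine (mul_le_mul_of_nonneg_left h4 hsr.le).trans (le_of_eq ?_)
    field_simp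
  have hlo : ∀ z z' : Grid (2 ^ J) 2 → ℤ, ∀ H : ℝ,
      H / s ≤ W1 ρ (unif s (c.St z)) (unif s (c.St z')) → H ≤ ‖ϕ z - ϕ z'‖ := by
    intro z z' H h
    rw [hn]
    have h4 : r * (H / s) ≤ ‖f (m z) - f (m z')‖ :=
      (mul_le_mul_of_nonneg_left h hr.le).trans ((hf (m z) (m z')).1)
    refine le_trans (le_of_eq ?_) (mul_le_mul_of_nonneg_left h4 hsr.le)
    field_simp
  refine core2 hJ (ϕ := ϕ) hD hDN hb hτ δ hball ?_ ?_ ?_
  · intro z a
    exact hup _ _ _ (W1_step hρ c (by positivity) h1 z a)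
  · intro z hz a j h
    refine hup _ _ _ (W1_adj hρ c (upd_ne a j h) (fun j' j'' => h2 a j h _ _) ?_ ?_)
    · rw [hW]
      exact hz a
    · rw [hW]
      exact hz _
  · intro i hi K κ x y z hz hz'
    have h5 : (32 : ℝ) ≤ 2 ^ i := by
      calc (32 : ℝ) = 2 ^ 5 := by norm_num
        _ ≤ 2 ^ i := pow_le_pow_right₀ (by norm_num) hi
    have h6 : (1 : ℝ) ≤ τ * 2 ^ i / 17 := by
      rw [le_div_iff₀ (by norm_num)]
      nlinarith
    rw [norm_sub_rev]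
    refine hlo _ _ _ (W1_far hρ hs c δ (r := τ * 2 ^ i / 17) (t := b / 2 * (τ * 2 ^ i / 17))
      (fun a => ?_) (by positivity) ?_ x y z ?_ ?_)
    · rw [hδ a]
      linarith
    · intro a a' j j' h
      have h7 := h3 a j a' j'
      have h8 : b * (τ * 2 ^ i / 17) ≤ b * δ a a' := mul_le_mul_of_nonneg_left h hb.le
      have h9 : b * 1 ≤ b * (τ * 2 ^ i / 17) := mul_le_mul_of_nonneg_left h6 hb.le
      linarith
    · intro a
      rw [hW]
      exact hz a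
    · intro a
      rw [hW]
      exact hz' a

theorem main_low {Δ d s J : ℕ} (hJ : 11 ≤ J) (hd : 2 ≤ d)
    (hΔ : 8 * 2 ^ (11 * J) ≤ Δ) (hs : 2 ^ (22 * J) ≤ s) (hs2 : 2 * s ≤ Δ ^ d) {D : ℝ} :
    (EmbedsL1 (fun μ ν : Y Δ d s => W1 rho1 μ.1 ν.1) D → ((J : ℝ) - 5) / 2720 ≤ D) ∧
    (EmbedsL1 (fun μ ν : Y Δ d s => W1 rho2 μ.1 ν.1) D → ((J : ℝ) - 5) / 2720 ≤ D) := by
  classical
  have hJ1 : (11 : ℝ) ≤ J := by exact_mod_cast hJ
  by_cases hDN : D ≤ ((2 : ℝ) ^ J) ^ 2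
  · have hb0 : 2 ^ J * (4 * 2 * 2 ^ (10 * J)) ≤ Δ := by
      refine le_trans (le_of_eq ?_) hΔ
      rw [show 11 * J = J + 10 * J by ring, pow_add]
      ring
    have hs0 : (2 ^ J) ^ 2 * (2 ^ (10 * J)) ^ 2 ≤ s := by
      refine le_trans (le_of_eq ?_) hs
      rw [← pow_mul, ← pow_mul, ← pow_add]
      congr 1
      ring
    have hsp : 0 < s := lt_of_lt_of_le (by positivity) hs
    obtain ⟨c, hc1, hc2, hc3, hc4⟩ := cfg_exists (n := 2 ^ J) (k := 2) (w := 2 ^ (10 * J))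
      Nat.one_le_two_pow (by norm_num) hd Nat.one_le_two_pow hb0 hs0 hs2
    push_cast at hc1 hc2 hc3 hc4
    have hW : ((((2 ^ (10 * J)) ^ 2 : ℕ)) : ℤ) = (((2 : ℤ) ^ J) ^ 2) ^ 10 := by
      push_cast
      rw [← pow_mul, ← pow_mul, ← pow_mul]
      congr 1
      ring
    have hb : (0 : ℝ) < 4 * 2 * 2 ^ (10 * J) := by positivity
    have hkw : (2 : ℝ) * 2 ^ (10 * J) = (4 * 2 * 2 ^ (10 * J)) / 4 := by ring
    have h2 : ∀ a j h j' j'', rho1 (c.P (upd a j h) j') (c.P a j'') ≤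
        2 * (4 * 2 * 2 ^ (10 * J)) := by
      intro a j h j' j''
      have h3 := hc2 (upd a j h) j' a j''
      rw [rho1_upd, mul_one] at h3
      refine h3.trans ?_
      rw [hkw]
      linarith
    have hfin : ∀ τ : ℝ, 1 ≤ τ → τ * ((J : ℝ) - 5) / 2720 ≤ D → ((J : ℝ) - 5) / 2720 ≤ D := by
      intro τ hτ h
      refine le_trans ?_ h
      refine div_le_div_of_nonneg_right ?_ (by norm_num)
      nlinarith
    refine ⟨fun hE => hfin 2 (by norm_num) ?_, fun hE => hfin (Real.sqrt 2) ?_ ?_⟩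
    · refine low_aux hJ hsp isMet_rho1 rho1 isMet_rho1.self (by norm_num) hb hW c
        (fun a j t => ?_) h2 (fun a j a' j' => ?_) (fun i hi x => ?_) hDN hE
      · refine (hc1 a j t).trans (le_of_eq ?_)
        ring
      · rw [← hkw]
        exact hc3 a j a' j'
      · exact_mod_cast ball1 (k := 2) (by norm_num) hi x
    · exact Real.one_le_sqrt.2 (by norm_num)
    · refine low_aux hJ hsp isMet_rho2 rho2 isMet_rho2.self (Real.one_le_sqrt.2 (by norm_num)) hb hW c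
        (fun a j t => ?_) (fun a j h j' j'' => (rho2_le_rho1 _ _).trans (h2 a j h j' j''))
        (fun a j a' j' => ?_) (fun i hi x => ?_) hDN hE
      · refine (rho2_le_rho1 _ _).trans ((hc1 a j t).trans (le_of_eq ?_))
        ring
      · rw [← hkw]
        exact hc4 a j a' j'
      · exact_mod_cast ball2 (k := 2) (by norm_num) hi x
  · have h1 : J < 2 ^ J := Nat.lt_two_pow_self
    have h2 : (J : ℝ) < (2 : ℝ) ^ J := by exact_mod_cast h1
    have h3 : ((2 : ℝ) ^ J) ^ 2 < D := not_le.1 hDN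
    have h4 : (1 : ℝ) ≤ (2 : ℝ) ^ J := one_le_pow₀ (by norm_num)
    have h5 : ((J : ℝ) - 5) / 2720 ≤ D := by
      rw [div_le_iff₀ (by norm_num)]
      nlinarith
    exact ⟨fun _ => h5, fun _ => h5⟩

end Pool.Agent.GrP
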