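import Pool.Agent.GrP.Basic

/-!
MODULE mom (M). First and second moment of the test functional on an indicator function.
(Adapt `Pool/Agent/GrO/Mom.lean`, whose private lemmas may be copied.)

Put `f j (h, h') = ind A (pt j h) - ind A (pt j h')`, `n_j = #{h | pt j h ∈ A}`, `α_j = n_j / |H|`.
`∑_{h,h'} f j = 0`, `∑_{h,h'} |f j| = ∑_{h,h'} (f j)^2 = 2 n_j (|H| - n_j)`. First bound:
`|∑_j f j| ≤ ∑_j |f j|`. Second bound: Cauchy-Schwarz and, as the mixed terms vanish,
`|H|^(-2K) ∑_{u,v} (∑_j f j (u j, v j))^2 = ∑_j |H|^(-2) ∑_{h,h'} (f j (h, h'))^2`.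
-/

set_option autoImplicit false

namespace Pool.Agent.GrP

open Finset Pool.Agent.MP_12e089_an Pool.Agent.GrO

private theorem mom_coord {P : Type} [Fintype P] {K : ℕ} (f : P → ℝ) (i : Fin K) :
    (Fintype.card P : ℝ) * ∑ z : Fin K → P, f (z i) = (∑ p, f p) * (Fintype.card P : ℝ) ^ K := by
  classical
  have h1 : ∑ z : Fin K → P, f (z i) =
      (∑ p, f p) * (Fintype.card ({j : Fin K // j ≠ i} → P) : ℝ) := by
    rw [Fintype.sum_equiv (Equiv.funSplitAt i P) (fun z => f (z i)) (fun w => f w.1)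
      (fun z => rfl), Fintype.sum_prod_type]
    simp only [sum_const, card_univ, nsmul_eq_mul]
    rw [← mul_sum, mul_comm]
  have h2 : (Fintype.card P : ℝ) ^ K =
      (Fintype.card P : ℝ) * (Fintype.card ({j : Fin K // j ≠ i} → P) : ℝ) := by
    have h3 := Fintype.card_congr (Equiv.funSplitAt i P)
    rw [Fintype.card_prod, Fintype.card_fun, Fintype.card_fin] at h3
    exact_mod_cast h3
  rw [h1, h2]
  ring

private theorem mom_mixed {P : Type} [Fintype P] {K : ℕ} (f g : P → ℝ) (hf : ∑ p, f p = 0)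
    (i j : Fin K) (hij : j ≠ i) : ∑ z : Fin K → P, f (z i) * g (z j) = 0 := by
  classical
  rw [Fintype.sum_equiv (Equiv.funSplitAt i P) (fun z => f (z i) * g (z j))
    (fun w => f w.1 * g (w.2 ⟨j, hij⟩)) (fun z => rfl), Fintype.sum_prod_type]
  simp only [← mul_sum]
  rw [← sum_mul, hf, zero_mul]

private theorem mom_sq {P : Type} [Fintype P] {K : ℕ} (f : Fin K → P → ℝ)
    (hf : ∀ j, ∑ p, f j p = 0) :
    (Fintype.card P : ℝ) * ∑ z : Fin K → P, (∑ j, f j (z j)) ^ 2 =
      (∑ j, ∑ p, f j p ^ 2) * (Fintype.card P : ℝ) ^ K := by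
  have h1 : ∑ z : Fin K → P, (∑ j, f j (z j)) ^ 2 =
      ∑ i : Fin K, ∑ z : Fin K → P, f i (z i) ^ 2 := by
    have h2 : ∀ z : Fin K → P, (∑ j, f j (z j)) ^ 2 = ∑ i, ∑ j, f i (z i) * f j (z j) := by
      intro z
      rw [sq, sum_mul_sum]
    simp only [h2]
    rw [sum_comm]
    refine sum_congr rfl fun i _ => ?_
    rw [sum_comm]
    rw [← add_sum_erase _ _ (mem_univ i)]
    rw [sum_eq_zero (s := univ.erase i), add_zero]
    · exact sum_congr rfl fun z _ => by rw [sq]
    · intro j hj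
      exact mom_mixed (f i) (f j) (hf i) i j (ne_of_mem_erase hj)
  rw [h1, mul_sum, sum_mul]
  exact sum_congr rfl fun i _ => mom_coord (fun p => f i p ^ 2) i

private theorem mom_ind {G : Type} [DecidableEq G] (A : Finset G) (x : G) :
    ind A x = 0 ∨ ind A x = 1 := by
  unfold ind
  split_ifs <;> simp

private theorem mom_pair {G H : Type} [DecidableEq G] [Fintype H] (q : H → G) (A : Finset G) :
    ∑ p : H × H, (ind A (q p.1) + ind A (q p.2) - 2 * (ind A (q p.1) * ind A (q p.2))) =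
      2 * ((univ.filter fun h => q h ∈ A).card : ℝ) *
        ((Fintype.card H : ℝ) - (univ.filter fun h => q h ∈ A).card) := by
  have h1 : ∑ h, ind A (q h) = ((univ.filter fun h => q h ∈ A).card : ℝ) := by
    unfold ind
    rw [sum_boole]
  rw [Fintype.sum_prod_type]
  simp only [sum_sub_distrib, sum_add_distrib, sum_const, card_univ, nsmul_eq_mul, ← mul_sum, h1]
  rw [← sum_mul, h1]
  ring

theorem tq_ind_le {G H : Type} [DecidableEq G] [Fintype H] [Nonempty H] {K : ℕ}
    (pt : Fin K → H → G) (A : Finset G) {M : ℝ}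
    (hM : ∑ j, 2 * (((univ.filter fun h => pt j h ∈ A).card : ℝ) / Fintype.card H) *
      (1 - ((univ.filter fun h => pt j h ∈ A).card : ℝ) / Fintype.card H) ≤ M) :
    tq pt (ind A) ≤ min M (Real.sqrt M) := by
  classical
  set N : ℝ := (Fintype.card H : ℝ) with hN
  have hNpos : 0 < N := by
    rw [hN]
    exact_mod_cast Fintype.card_pos
  have hN0 : N ≠ 0 := hNpos.ne'
  let h : Fin K → H × H → ℝ := fun j p => ind A (pt j p.1) - ind A (pt j p.2)
  let g : Fin K → H × H → ℝ := fun j p =>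
    ind A (pt j p.1) + ind A (pt j p.2) - 2 * (ind A (pt j p.1) * ind A (pt j p.2))
  have hcard : (Fintype.card (H × H) : ℝ) = N ^ 2 := by
    rw [Fintype.card_prod]
    push_cast
    rw [← hN, sq]
  have htq : tq pt (ind A) = (∑ z : Fin K → H × H, |∑ j, h j (z j)|) / N ^ (2 * K) := by
    unfold tq
    congr 1
    rw [← Fintype.sum_prod_type'
      (f := fun x y : Fin K → H => ‖∑ j, (ind A (pt j (x j)) - ind A (pt j (y j)))‖)]
    symm
    refine Fintype.sum_equiv (Equiv.arrowProdEquivProdArrow (Fin K) (fun _ => H) (fun _ => H))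
      _ _ ?_
    intro z
    rw [Real.norm_eq_abs]
    rfl
  have hsum0 : ∀ j, ∑ p, h j p = 0 := by
    intro j
    rw [Fintype.sum_prod_type]
    simp only [h, sum_sub_distrib, sum_const, card_univ, nsmul_eq_mul]
    rw [← mul_sum]
    ring
  have habs : ∀ j p, |h j p| = g j p := by
    intro j p
    simp only [h, g]
    rcases mom_ind A (pt j p.1) with h1 | h1 <;> rcases mom_ind A (pt j p.2) with h2 | h2 <;>
      rw [h1, h2] <;> norm_num
  have hsq : ∀ j p, h j p ^ 2 = g j p := by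
    intro j p
    simp only [h, g]
    rcases mom_ind A (pt j p.1) with h1 | h1 <;> rcases mom_ind A (pt j p.2) with h2 | h2 <;>
      rw [h1, h2] <;> norm_num
  have hG : (∑ j, ∑ p, g j p) / N ^ 2 ≤ M := by
    refine le_trans (le_of_eq ?_) hM
    rw [sum_div]
    refine sum_congr rfl fun j _ => ?_
    rw [mom_pair (pt j) A, ← hN]
    field_simp
  have hG' : ∑ j, ∑ p, g j p ≤ M * N ^ 2 := (div_le_iff₀ (by positivity)).1 hG
  have hP : (0 : ℝ) < N ^ (2 * K) := by positivity
  have hN2 : (0 : ℝ) < N ^ 2 := by positivity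
  refine le_min ?_ ?_
  · rw [htq, div_le_iff₀ hP]
    have h1 : ∑ z : Fin K → H × H, |∑ j, h j (z j)| ≤
        ∑ j : Fin K, ∑ z : Fin K → H × H, |h j (z j)| := by
      rw [sum_comm]
      exact sum_le_sum fun z _ => abs_sum_le_sum_abs _ _
    have h2 : ∀ j : Fin K, N ^ 2 * ∑ z : Fin K → H × H, |h j (z j)| =
        (∑ p, g j p) * N ^ (2 * K) := by
      intro j
      have h3 := mom_coord (fun p : H × H => |h j p|) j
      rw [hcard, ← pow_mul] at h3
      rw [h3]
      congr 1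
      exact sum_congr rfl fun p _ => habs j p
    have h4 : N ^ 2 * ∑ z : Fin K → H × H, |∑ j, h j (z j)| ≤ N ^ 2 * (M * N ^ (2 * K)) := by
      calc N ^ 2 * ∑ z : Fin K → H × H, |∑ j, h j (z j)|
          ≤ N ^ 2 * ∑ j : Fin K, ∑ z : Fin K → H × H, |h j (z j)| :=
            mul_le_mul_of_nonneg_left h1 hN2.le
        _ = (∑ j, ∑ p, g j p) * N ^ (2 * K) := by
            rw [mul_sum, sum_mul]
            exact sum_congr rfl fun j _ => h2 j
        _ ≤ (M * N ^ 2) * N ^ (2 * K) := mul_le_mul_of_nonneg_right hG' hP.le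
        _ = N ^ 2 * (M * N ^ (2 * K)) := by ring
    exact le_of_mul_le_mul_left h4 hN2
  · refine Real.le_sqrt_of_sq_le ?_
    rw [htq, div_pow, div_le_iff₀ (by positivity)]
    have hcs : (∑ z : Fin K → H × H, |∑ j, h j (z j)|) ^ 2 ≤
        N ^ (2 * K) * ∑ z : Fin K → H × H, (∑ j, h j (z j)) ^ 2 := by
      have h1 := sq_sum_le_card_mul_sum_sq (s := (univ : Finset (Fin K → H × H)))
        (f := fun z => |∑ j, h j (z j)|)
      simp only [sq_abs] at h1
      refine h1.trans (le_of_eq ?_)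
      congr 1
      rw [card_univ, Fintype.card_fun, Fintype.card_fin]
      push_cast
      rw [hcard, pow_mul]
    have h3 := mom_sq (K := K) h hsum0
    rw [hcard, ← pow_mul] at h3
    have h6 : ∑ j, ∑ p, h j p ^ 2 = ∑ j, ∑ p, g j p :=
      sum_congr rfl fun j _ => sum_congr rfl fun p _ => hsq j p
    rw [h6] at h3
    have h4 : N ^ 2 * (∑ z : Fin K → H × H, |∑ j, h j (z j)|) ^ 2 ≤
        N ^ 2 * (M * (N ^ (2 * K)) ^ 2) := by
      calc N ^ 2 * (∑ z : Fin K → H × H, |∑ j, h j (z j)|) ^ 2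
          ≤ N ^ 2 * (N ^ (2 * K) * ∑ z : Fin K → H × H, (∑ j, h j (z j)) ^ 2) :=
            mul_le_mul_of_nonneg_left hcs hN2.le
        _ = N ^ (2 * K) * ((∑ j, ∑ p, g j p) * N ^ (2 * K)) := by rw [← h3]; ring
        _ ≤ N ^ (2 * K) * ((M * N ^ 2) * N ^ (2 * K)) :=
            mul_le_mul_of_nonneg_left (mul_le_mul_of_nonneg_right hG' hP.le) hP.le
        _ = N ^ 2 * (M * (N ^ (2 * K)) ^ 2) := by ring
    exact le_of_mul_le_mul_left h4 hN2

end Pool.Agent.GrP
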