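import Mathlib

/-!
MODULE sum (M). The scale sum.

Proof. If `P = 0` all `M i = 0`. Otherwise, for `2^i ≤ P`: `2^i min (M, √M) ≤ 2^i √(P / 2^i) = √(2^i P)`,
and for `2^i > P`: `2^i min (M, √M) ≤ 2^i M ≤ P^2 / (2 · 2^i)`. By induction on `n`
`∑_{i < n} √(2^i P) ≤ (√2 + 1) √(2^n P)` (`(√2 + 1) + 1 ≤ (√2 + 1) √2` up to equality), and for `a ≤ n`
`∑_{a ≤ i < n} P^2 / (2 · 2^i) ≤ P^2 / 2^a`. Let `a` be the least number with `P < 2^a`: if `a = 0` the
first part is empty and the second is at most `P^2 ≤ P`; if `a ≥ 1` then `2^(a-1) ≤ P`, so the first part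
is at most `(√2 + 1) √(2 P P) = (2 + √2) P ≤ 3.5 P` and the second at most `P^2 / 2^a ≤ P`. (If `a > n`, only
the first part occurs, with `2^n ≤ 2^(a-1) ≤ P`.)
-/

set_option autoImplicit false

namespace Pool.Agent.GrP

open Finset

private theorem sum_sqrt_double {x : ℝ} (hx : 0 ≤ x) :
    7 / 5 * Real.sqrt x ≤ Real.sqrt (2 * x) := by
  apply Real.le_sqrt_of_sq_le
  rw [mul_pow, Real.sq_sqrt hx]
  nlinarith

/-- both parts at once, by induction on `n` -/
private theorem sum_aux {P : ℝ} (hP : 0 ≤ P) (g : ℕ → ℝ)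
    (h1 : ∀ i, g i ≤ Real.sqrt (2 ^ i * P)) (h2 : ∀ i, g i ≤ P ^ 2 / (2 * 2 ^ i)) (n : ℕ) :
    (P < 2 ^ n → ∑ i ∈ range n, g i + P ^ 2 / 2 ^ n ≤ 5 * P) ∧
    ((2 : ℝ) ^ n ≤ P → ∑ i ∈ range n, g i ≤ 5 / 2 * Real.sqrt (2 ^ n * P)) := by
  induction n with
  | zero =>
    refine ⟨fun h => ?_, fun _ => ?_⟩
    · rw [pow_zero] at h
      rw [sum_range_zero, pow_zero, zero_add, div_one]
      nlinarith
    · rw [sum_range_zero]
      positivity
  | succ n ih =>
    have hpos : (0 : ℝ) < 2 ^ n := by positivity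
    rw [sum_range_succ]
    rcases lt_or_ge P (2 ^ n) with hlt | hge
    · refine ⟨fun _ => ?_, fun h => ?_⟩
      · have e1 := ih.1 hlt
        have e2 := h2 n
        have e3 : P ^ 2 / (2 * 2 ^ n) + P ^ 2 / 2 ^ (n + 1) = P ^ 2 / 2 ^ n := by
          rw [pow_succ]
          field_simp
          ring
        linarith
      · exfalso
        rw [pow_succ] at h
        linarith
    · have e1 := ih.2 hge
      have e2 := h1 n
      have e3 : Real.sqrt (2 ^ n * P) ≤ P := by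
        rw [Real.sqrt_le_left hP]
        nlinarith
      have e4 : 7 / 5 * Real.sqrt (2 ^ n * P) ≤ Real.sqrt (2 ^ (n + 1) * P) := by
        have := sum_sqrt_double (x := 2 ^ n * P) (by positivity)
        have e : 2 * (2 ^ n * P) = 2 ^ (n + 1) * P := by ring
        rwa [e] at this
      refine ⟨fun h => ?_, fun h => ?_⟩
      · have e5 : P ^ 2 / 2 ^ (n + 1) ≤ P := by
          rw [div_le_iff₀ (by positivity)]
          nlinarith
        linarith
      · linarith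

theorem sum_scales {P : ℝ} (hP : 0 ≤ P) (M : ℕ → ℝ) (hM0 : ∀ i, 0 ≤ M i)
    (hM1 : ∀ i, M i ≤ P / 2 ^ i) (hM2 : ∀ i, M i ≤ P ^ 2 / (2 * (2 ^ i) ^ 2)) (n : ℕ) :
    ∑ i ∈ Finset.range n, (2 : ℝ) ^ i * min (M i) (Real.sqrt (M i)) ≤ 5 * P := by
  have h1 : ∀ i, (2 : ℝ) ^ i * min (M i) (Real.sqrt (M i)) ≤ Real.sqrt (2 ^ i * P) := by
    intro i
    have hpos : (0 : ℝ) < 2 ^ i := by positivity
    apply Real.le_sqrt_of_sq_le
    have e1 : (2 : ℝ) ^ i * min (M i) (Real.sqrt (M i)) ≤ 2 ^ i * Real.sqrt (M i) :=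
      mul_le_mul_of_nonneg_left (min_le_right _ _) hpos.le
    have e0 : 0 ≤ (2 : ℝ) ^ i * min (M i) (Real.sqrt (M i)) :=
      mul_nonneg hpos.le (le_min (hM0 i) (Real.sqrt_nonneg _))
    calc ((2 : ℝ) ^ i * min (M i) (Real.sqrt (M i))) ^ 2 ≤ (2 ^ i * Real.sqrt (M i)) ^ 2 :=
          pow_le_pow_left₀ e0 e1 2
      _ = 2 ^ i * (2 ^ i * M i) := by
          rw [mul_pow, Real.sq_sqrt (hM0 i)]
          ring
      _ ≤ 2 ^ i * P := by
          refine mul_le_mul_of_nonneg_left ?_ hpos.le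
          have := hM1 i
          rw [le_div_iff₀ hpos] at this
          linarith
  have h2 : ∀ i, (2 : ℝ) ^ i * min (M i) (Real.sqrt (M i)) ≤ P ^ 2 / (2 * 2 ^ i) := by
    intro i
    have hpos : (0 : ℝ) < 2 ^ i := by positivity
    calc (2 : ℝ) ^ i * min (M i) (Real.sqrt (M i)) ≤ 2 ^ i * M i :=
          mul_le_mul_of_nonneg_left (min_le_left _ _) hpos.le
      _ ≤ 2 ^ i * (P ^ 2 / (2 * (2 ^ i) ^ 2)) := mul_le_mul_of_nonneg_left (hM2 i) hpos.le
      _ = P ^ 2 / (2 * 2 ^ i) := by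
          field_simp
  have h := sum_aux hP (fun i => (2 : ℝ) ^ i * min (M i) (Real.sqrt (M i))) h1 h2 n
  rcases lt_or_ge P (2 ^ n) with hlt | hge
  · have := h.1 hlt
    have e : 0 ≤ P ^ 2 / 2 ^ n := by positivity
    linarith
  · have := h.2 hge
    have e3 : Real.sqrt (2 ^ n * P) ≤ P := by
      rw [Real.sqrt_le_left hP]
      nlinarith
    linarith

end Pool.Agent.GrP
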