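import Pool.Agent.GrP.Iso
import Pool.Agent.GrP.Sum
import Pool.Agent.GrP.Mom
import Pool.Agent.GrP.Cell

/-!
MODULE set (S/M). The multi-scale inequality for sets.

Proof. `P = grad (ind A) ≥ 0`. For `i ≤ J` let `B_j = {h | pt J i j h ∈ A}`, `p_j = grad (ind B_j)`,
`m_j = 2 α_j (1 - α_j)`, `α_j = |B_j| / (2^i)^2`, `M i = ∑_j m_j` (and `M i = 0` for `i > J`).
`ind B_j = fun h => ind A (pt J i j h)`, so `∑_j p_j ≤ P` (`grad_cell`). `iso_a`: `m_j ≤ p_j / 2^i`, so
`M i ≤ P / 2^i`. `iso_b`: `m_j ≤ p_j^2 / (2 (2^i)^2)`, so `M i ≤ P^2 / (2 (2^i)^2)`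
(`∑ p_j^2 ≤ (∑ p_j)^2`). `tq_ind_le` and `sum_scales` with `n = J + 1`.
-/

set_option autoImplicit false

namespace Pool.Agent.GrP

open Finset Pool.Agent.MP_12e089_an Pool.Agent.GrO

private theorem set_grad_nonneg {n k : ℕ} (φ : Grid n k → ℝ) : 0 ≤ grad φ := by
  unfold grad
  refine sum_nonneg fun x _ => sum_nonneg fun j _ => ?_
  split_ifs
  · exact norm_nonneg _
  · exact le_rfl

private theorem set_card (i : ℕ) : (Fintype.card (Grid (2 ^ i) 2) : ℝ) = ((2 ^ i : ℕ) : ℝ) ^ 2 := by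
  rw [Fintype.card_fun, Fintype.card_fin, Fintype.card_fin, Nat.cast_pow]

theorem set_ineq {J : ℕ} (A : Finset (Grid (2 ^ J) 2)) :
    ∑ i ∈ Finset.range (J + 1), (2 : ℝ) ^ i * tq (pt J i) (ind A) ≤ 5 * grad (ind A) := by
  classical
  set P : ℝ := grad (ind A) with hP
  have hP0 : 0 ≤ P := set_grad_nonneg _
  let B : (i : ℕ) → Fin ((2 ^ (J - i)) ^ 2) → Finset (Grid (2 ^ i) 2) :=
    fun i j => univ.filter fun h => pt J i j h ∈ A
  let m : (i : ℕ) → Fin ((2 ^ (J - i)) ^ 2) → ℝ := fun i j =>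
    2 * (((B i j).card : ℝ) / Fintype.card (Grid (2 ^ i) 2)) *
      (1 - ((B i j).card : ℝ) / Fintype.card (Grid (2 ^ i) 2))
  let M : ℕ → ℝ := fun i => if i ≤ J then ∑ j, m i j else 0
  have hpow : ∀ i : ℕ, ((2 ^ i : ℕ) : ℝ) = (2 : ℝ) ^ i := fun i => by push_cast; rfl
  have h1i : ∀ i : ℕ, 1 ≤ 2 ^ i := fun i => Nat.one_le_two_pow
  have hm0 : ∀ i j, 0 ≤ m i j := by
    intro i j
    have hc : (0 : ℝ) < Fintype.card (Grid (2 ^ i) 2) := by
      rw [set_card]
      positivity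
    have h1 : ((B i j).card : ℝ) / Fintype.card (Grid (2 ^ i) 2) ≤ 1 := by
      rw [div_le_one hc]
      exact_mod_cast card_le_univ _
    have h0 : 0 ≤ ((B i j).card : ℝ) / Fintype.card (Grid (2 ^ i) 2) := by positivity
    exact mul_nonneg (mul_nonneg zero_le_two h0) (sub_nonneg.mpr h1)
  have hma : ∀ i j, m i j ≤ grad (ind (B i j)) / 2 ^ i := by
    intro i j
    have := iso_a (h1i i) (B i j)
    rw [← set_card, hpow] at this
    exact this
  have hmb : ∀ i j, m i j ≤ grad (ind (B i j)) ^ 2 / (2 * (2 ^ i) ^ 2) := by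
    intro i j
    have := iso_b (h1i i) (B i j)
    rw [← set_card, set_card, hpow] at this
    show 2 * (((B i j).card : ℝ) / Fintype.card (Grid (2 ^ i) 2)) *
      (1 - ((B i j).card : ℝ) / Fintype.card (Grid (2 ^ i) 2)) ≤ _
    rw [set_card, hpow]
    exact this
  have hsum : ∀ i ≤ J, ∑ j, grad (ind (B i j)) ≤ P := by
    intro i hi
    have h := grad_cell hi (ind A)
    refine (sum_le_sum fun j _ => ?_).trans h
    refine le_of_eq ?_
    congr 1
    funext h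
    show ind (B i j) h = ind A (pt J i j h)
    unfold ind
    simp only [B, mem_filter, mem_univ, true_and]
  have hM0 : ∀ i, 0 ≤ M i := by
    intro i
    show 0 ≤ if i ≤ J then ∑ j, m i j else 0
    split_ifs
    · exact sum_nonneg fun j _ => hm0 i j
    · exact le_rfl
  have hM1 : ∀ i, M i ≤ P / 2 ^ i := by
    intro i
    show (if i ≤ J then ∑ j, m i j else 0) ≤ _
    split_ifs with hi
    · calc ∑ j, m i j ≤ ∑ j, grad (ind (B i j)) / 2 ^ i := sum_le_sum fun j _ => hma i j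
        _ = (∑ j, grad (ind (B i j))) / 2 ^ i := by rw [sum_div]
        _ ≤ P / 2 ^ i := by
            have := hsum i hi
            gcongr
    · positivity
  have hM2 : ∀ i, M i ≤ P ^ 2 / (2 * (2 ^ i) ^ 2) := by
    intro i
    show (if i ≤ J then ∑ j, m i j else 0) ≤ _
    split_ifs with hi
    · have hsq : ∑ j, grad (ind (B i j)) ^ 2 ≤ P ^ 2 := by
        have h1 : ∑ j, grad (ind (B i j)) ^ 2 ≤ (∑ j, grad (ind (B i j))) ^ 2 :=
          sum_sq_le_sq_sum_of_nonneg fun j _ => set_grad_nonneg _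
        exact h1.trans (pow_le_pow_left₀ (sum_nonneg fun j _ => set_grad_nonneg _) (hsum i hi) 2)
      calc ∑ j, m i j ≤ ∑ j, grad (ind (B i j)) ^ 2 / (2 * (2 ^ i) ^ 2) :=
            sum_le_sum fun j _ => hmb i j
        _ = (∑ j, grad (ind (B i j)) ^ 2) / (2 * (2 ^ i) ^ 2) := by rw [sum_div]
        _ ≤ P ^ 2 / (2 * (2 ^ i) ^ 2) := by gcongr
    · positivity
  refine (sum_le_sum fun i hi => ?_).trans (sum_scales hP0 M hM0 hM1 hM2 (J + 1))
  have hi' : i ≤ J := Nat.lt_succ_iff.mp (mem_range.mp hi)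
  refine mul_le_mul_of_nonneg_left ?_ (by positivity)
  have : Nonempty (Grid (2 ^ i) 2) := ⟨fun _ => ⟨0, by positivity⟩⟩
  refine tq_ind_le (pt J i) A ?_
  show ∑ j, m i j ≤ if i ≤ J then ∑ j, m i j else 0
  rw [if_pos hi']

end Pool.Agent.GrP
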